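import Pool.Agent.Helper52.DW.Sub2

/-!
# Finiteness and real completeness of an abstract fan with a weight (MP_7dd0aa_al)
-/

set_option autoImplicit false
set_option linter.unusedSectionVars false

namespace Pool.Agent.Helper52.DW

open Finset Filter
open scoped Topology

/-- the sum norm -/
def nm {n : ℕ} (x : V n) : ℕ := ∑ i, (x i).natAbs

theorem nm_cast {n : ℕ} (x : V n) : (nm x : ℝ) = ∑ i, |(x i : ℝ)| := by
  unfold nm
  push_cast
  refine sum_congr rfl fun i _ => ?_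
  rw [Nat.cast_natAbs]
  simp

theorem nm_pos {n : ℕ} {x : V n} (h : x ≠ 0) : 0 < nm x := by
  by_contra hc
  apply h
  have h0 : nm x = 0 := by omega
  unfold nm at h0
  ext i
  have := (sum_eq_zero_iff.1 h0) i (mem_univ i)
  simpa using this

/-- simultaneous approximation -/
theorem dirichlet {n : ℕ} (θ : Fin n → ℝ) {η : ℝ} (hη : 0 < η) :
    ∃ q : ℕ, 1 ≤ q ∧ ∃ p : V n, ∀ i, |(q : ℝ) * θ i - p i| ≤ η := by
  have hK : IsCompact (Set.pi Set.univ (fun _ : Fin n => Set.Icc (0 : ℝ) 1)) :=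
    isCompact_univ_pi fun _ => isCompact_Icc
  obtain ⟨a, -, φ, hφ, hlim⟩ := hK.tendsto_subseq (x := fun k : ℕ => fun i => Int.fract ((k : ℝ) * θ i))
    (fun k => by
      intro i _
      exact ⟨Int.fract_nonneg _, (Int.fract_lt_one _).le⟩)
  rw [Metric.tendsto_atTop] at hlim
  obtain ⟨K, hKK⟩ := hlim (η / 2) (by linarith)
  have h1 := hKK K le_rfl
  have h2 := hKK (K + 1) (by omega)
  have hlt : φ K < φ (K + 1) := hφ (by omega)
  refine ⟨φ (K + 1) - φ K, by omega,
    fun i => ⌊(φ (K + 1) : ℝ) * θ i⌋ - ⌊(φ K : ℝ) * θ i⌋, fun i => ?_⟩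
  have h3 : |Int.fract ((φ K : ℝ) * θ i) - a i| < η / 2 := by
    rw [← Real.dist_eq]
    exact lt_of_le_of_lt (dist_le_pi_dist (fun i => Int.fract ((φ K : ℝ) * θ i)) a i) h1
  have h4 : |Int.fract ((φ (K + 1) : ℝ) * θ i) - a i| < η / 2 := by
    rw [← Real.dist_eq]
    exact lt_of_le_of_lt (dist_le_pi_dist (fun i => Int.fract ((φ (K + 1) : ℝ) * θ i)) a i) h2
  have h5 : ((φ (K + 1) - φ K : ℕ) : ℝ) * θ i
      - ((⌊(φ (K + 1) : ℝ) * θ i⌋ - ⌊(φ K : ℝ) * θ i⌋ : ℤ) : ℝ)
      = Int.fract ((φ (K + 1) : ℝ) * θ i) - Int.fract ((φ K : ℝ) * θ i) := by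
    rw [Nat.cast_sub hlt.le]
    push_cast
    unfold Int.fract
    ring
  rw [h5]
  rw [abs_lt] at h3 h4
  rw [abs_le]
  constructor <;> linarith

section

variable {n : ℕ} {c : V n → ℝ} {ε : ℝ}

theorem lip_bound (hsub : ∀ x y, c (x + y) ≤ c x + c y) (hhom : ∀ (m : ℕ) x, c (m • x) = m * c x)
    (hnn : ∀ x, 0 ≤ c x) : ∃ L : ℝ, 0 ≤ L ∧ ∀ x, c x ≤ L * nm x := by
  classical
  set L : ℝ := ∑ i, (c (Pi.single i 1) + c (Pi.single i (-1))) with hL
  have hL0 : 0 ≤ L := sum_nonneg fun i _ => add_nonneg (hnn _) (hnn _)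
  refine ⟨L, hL0, fun x => ?_⟩
  have h0 : c 0 = 0 := by
    have := hhom 0 0
    simpa using this
  have hs : ∀ s : Finset (Fin n), ∀ g : Fin n → V n, c (∑ i ∈ s, g i) ≤ ∑ i ∈ s, c (g i) := by
    intro s g
    induction s using Finset.induction_on with
    | empty => simp [h0]
    | insert a s ha ih =>
      rw [sum_insert ha, sum_insert ha]
      exact (hsub _ _).trans (by linarith)
  have h1 : x = ∑ i, Pi.single i (x i) := by
    exact (Finset.univ_sum_single x).symm
  have h2 : ∀ i, c (Pi.single i (x i)) ≤ (x i).natAbs * L := by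
    intro i
    have hi : c (Pi.single i 1) + c (Pi.single i (-1)) ≤ L := by
      rw [hL]
      exact single_le_sum (f := fun i => c (Pi.single i 1) + c (Pi.single i (-1)))
        (fun i _ => add_nonneg (hnn _) (hnn _)) (mem_univ i)
    rcases le_total 0 (x i) with h | h
    · have h3 : (Pi.single i (x i) : V n) = (x i).natAbs • (Pi.single i 1 : V n) := by
        ext j
        by_cases hj : j = i
        · subst hj
          rw [Pi.single_eq_same, Pi.smul_apply, Pi.single_eq_same, nsmul_eq_mul, mul_one,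
            Int.natCast_natAbs, abs_of_nonneg h]
        · rw [Pi.single_eq_of_ne hj, Pi.smul_apply, Pi.single_eq_of_ne hj, smul_zero]
      rw [h3, hhom]
      refine mul_le_mul_of_nonneg_left ?_ (Nat.cast_nonneg _)
      have := hnn (Pi.single i (-1))
      linarith
    · have h3 : (Pi.single i (x i) : V n) = (x i).natAbs • (Pi.single i (-1) : V n) := by
        ext j
        by_cases hj : j = i
        · subst hj
          rw [Pi.single_eq_same, Pi.smul_apply, Pi.single_eq_same, nsmul_eq_mul,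
            Int.natCast_natAbs, abs_of_nonpos h]
          ring
        · rw [Pi.single_eq_of_ne hj, Pi.smul_apply, Pi.single_eq_of_ne hj, smul_zero]
      rw [h3, hhom]
      refine mul_le_mul_of_nonneg_left ?_ (Nat.cast_nonneg _)
      have := hnn (Pi.single i 1)
      linarith
  calc c x = c (∑ i, Pi.single i (x i)) := by rw [← h1]
    _ ≤ ∑ i, c (Pi.single i (x i)) := hs _ _
    _ ≤ ∑ i, ((x i).natAbs : ℝ) * L := sum_le_sum fun i _ => h2 i
    _ = L * nm x := by
      rw [← sum_mul]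
      unfold nm
      push_cast
      ring

/-- a subadditive homogeneous function which is bounded below by a positive constant away from the origin is bounded
below by a multiple of the norm -/
theorem norm_bound (hε : 0 < ε) (hsub : ∀ x y, c (x + y) ≤ c x + c y)
    (hhom : ∀ (m : ℕ) x, c (m • x) = m * c x) (hpos : ∀ x, x ≠ 0 → ε ≤ c x) :
    ∃ δ : ℝ, 0 < δ ∧ ∀ x, δ * nm x ≤ c x := by
  classical
  have h0 : c 0 = 0 := by
    have := hhom 0 0
    simpa using this
  have hnn : ∀ x, 0 ≤ c x := by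
    intro x
    by_cases h : x = 0
    · rw [h, h0]
    · exact hε.le.trans (hpos x h)
  obtain ⟨L, hL0, hL⟩ := lip_bound hsub hhom hnn
  by_contra hcon
  push Not at hcon
  have h1 : ∀ k : ℕ, ∃ x : V n, c x < 1 / ((k : ℝ) + 1) * nm x := fun k =>
    hcon (1 / ((k : ℝ) + 1)) (by positivity)
  choose x hx using h1
  have hxne : ∀ k, x k ≠ 0 := by
    intro k h
    have := hx k
    rw [h, h0] at this
    simp [nm] at this
  have hN : ∀ k, 0 < (nm (x k) : ℝ) := fun k => by exact_mod_cast nm_pos (hxne k)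
  set θ : ℕ → Fin n → ℝ := fun k i => (x k i : ℝ) / nm (x k) with hθ
  have hθ1 : ∀ k, ∑ i, |θ k i| = 1 := by
    intro k
    have h2 : ∀ i, |θ k i| = |(x k i : ℝ)| / nm (x k) := fun i => by
      rw [hθ]
      simp only
      rw [abs_div, abs_of_pos (hN k)]
    rw [sum_congr rfl fun i _ => h2 i, ← sum_div, ← nm_cast]
    exact div_self (hN k).ne'
  have hθb : ∀ k i, |θ k i| ≤ 1 := by
    intro k i
    rw [← hθ1 k]
    exact single_le_sum (f := fun i => |θ k i|) (fun i _ => abs_nonneg _) (mem_univ i)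
  have hK : IsCompact (Set.pi Set.univ (fun _ : Fin n => Set.Icc (-1 : ℝ) 1)) :=
    isCompact_univ_pi fun _ => isCompact_Icc
  obtain ⟨t, -, φ, hφ, hlim⟩ := hK.tendsto_subseq (x := θ) (fun k => by
    intro i _
    exact abs_le.1 (hθb k i))
  rw [tendsto_pi_nhds] at hlim
  have ht1 : ∑ i, |t i| = 1 := by
    have h2 : Tendsto (fun k => ∑ i, |(θ ∘ φ) k i|) atTop (𝓝 (∑ i, |t i|)) :=
      tendsto_finsetSum _ fun i _ => (hlim i).abs
    have h3 : (fun k => ∑ i, |(θ ∘ φ) k i|) = fun _ => (1 : ℝ) := by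
      ext k
      exact hθ1 (φ k)
    rw [h3] at h2
    exact (tendsto_nhds_unique h2 tendsto_const_nhds)
  set η : ℝ := min (1 / (2 * ((n : ℝ) + 1))) (ε / (2 * (L * n + 1))) with hη
  have hη0 : 0 < η := by
    rw [hη]
    have : 0 ≤ L * n := mul_nonneg hL0 (Nat.cast_nonneg n)
    refine lt_min (by positivity) (by positivity)
  have hη1 : n * η < 1 := by
    have h2 : η ≤ 1 / (2 * ((n : ℝ) + 1)) := min_le_left _ _
    have h3 : (n : ℝ) * η ≤ n * (1 / (2 * ((n : ℝ) + 1))) :=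
      mul_le_mul_of_nonneg_left h2 (Nat.cast_nonneg n)
    have h4 : (n : ℝ) * (1 / (2 * ((n : ℝ) + 1))) < 1 := by
      rw [mul_one_div, div_lt_one (by positivity)]
      have : (0 : ℝ) ≤ n := Nat.cast_nonneg n
      linarith
    linarith
  have hη2 : L * (n * η) < ε := by
    have h2 : η ≤ ε / (2 * (L * n + 1)) := min_le_right _ _
    have h5 : 0 ≤ L * n := mul_nonneg hL0 (Nat.cast_nonneg n)
    have h3 : L * n * η ≤ L * n * (ε / (2 * (L * n + 1))) := mul_le_mul_of_nonneg_left h2 h5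
    have h4 : L * n * (ε / (2 * (L * n + 1))) < ε := by
      rw [← mul_div_assoc, div_lt_iff₀ (by positivity)]
      nlinarith
    linarith
  obtain ⟨q, hq, p, hp⟩ := dirichlet t hη0
  have hpne : p ≠ 0 := by
    intro h
    have h2 : ∀ i, (q : ℝ) * |t i| ≤ η := by
      intro i
      have := hp i
      rw [h] at this
      simp only [Pi.zero_apply, Int.cast_zero, sub_zero] at this
      rw [abs_mul, abs_of_nonneg (Nat.cast_nonneg q)] at this
      exact this
    have h3 : ∑ i, (q : ℝ) * |t i| ≤ ∑ _i : Fin n, η := sum_le_sum fun i _ => h2 i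
    rw [← mul_sum, ht1, sum_const, card_univ, Fintype.card_fin, nsmul_eq_mul, mul_one] at h3
    have h4 : (1 : ℝ) ≤ q := by exact_mod_cast hq
    linarith
  have hmain : ∀ k : ℕ, c p ≤ q * (1 / ((k : ℝ) + 1)) + L * (n * η + q * ∑ i, |t i - θ k i|) := by
    intro k
    have e1 : (nm (x k)) • p = q • (x k) + ((nm (x k)) • p - q • (x k)) := by abel
    have h2 : c ((nm (x k)) • p) ≤ c (q • (x k)) + c ((nm (x k)) • p - q • (x k)) := by
      conv_lhs => rw [e1]
      exact hsub _ _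
    rw [hhom, hhom] at h2
    have h3 := hL ((nm (x k)) • p - q • (x k))
    have h4 : (nm ((nm (x k)) • p - q • (x k)) : ℝ) ≤ nm (x k) * (n * η + q * ∑ i, |t i - θ k i|) := by
      rw [nm_cast]
      have h5 : ∀ i, |((((nm (x k)) • p - q • (x k)) i : ℤ) : ℝ)|
          ≤ nm (x k) * (η + q * |t i - θ k i|) := by
        intro i
        have h6 : ((((nm (x k)) • p - q • (x k)) i : ℤ) : ℝ)
            = nm (x k) * (-((q : ℝ) * t i - p i) + q * (t i - θ k i)) := by
          have h7 : (x k i : ℝ) = nm (x k) * θ k i := by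
            rw [hθ]
            simp only
            rw [mul_div_cancel₀ _ (hN k).ne']
          rw [Pi.sub_apply, Pi.smul_apply, Pi.smul_apply, nsmul_eq_mul, nsmul_eq_mul]
          push_cast
          rw [h7]
          ring
        rw [h6, abs_mul, abs_of_pos (hN k)]
        refine mul_le_mul_of_nonneg_left ?_ (hN k).le
        refine (abs_add_le _ _).trans ?_
        have e5 : |(q : ℝ) * (t i - θ k i)| = q * |t i - θ k i| := by
          rw [abs_mul, abs_of_nonneg (Nat.cast_nonneg q : (0 : ℝ) ≤ q)]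
        rw [abs_neg, e5]
        have := hp i
        linarith
      refine (sum_le_sum fun i _ => h5 i).trans ?_
      rw [← mul_sum, sum_add_distrib, sum_const, card_univ, Fintype.card_fin, nsmul_eq_mul, ← mul_sum]
    have h5 : (nm (x k) : ℝ) * c p ≤ nm (x k) * (q * (1 / ((k : ℝ) + 1))
        + L * (n * η + q * ∑ i, |t i - θ k i|)) := by
      have h6 : (q : ℝ) * c (x k) ≤ q * (1 / ((k : ℝ) + 1) * nm (x k)) :=
        mul_le_mul_of_nonneg_left (hx k).le (Nat.cast_nonneg q)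
      have h7 := mul_le_mul_of_nonneg_left h4 hL0
      calc (nm (x k) : ℝ) * c p ≤ q * c (x k) + c ((nm (x k)) • p - q • (x k)) := h2
        _ ≤ q * (1 / ((k : ℝ) + 1) * nm (x k)) + L * (nm (x k) * (n * η + q * ∑ i, |t i - θ k i|)) := by
          linarith
        _ = _ := by ring
    exact le_of_mul_le_mul_left h5 (hN k)
  have hlim2 : Tendsto (fun k => (q : ℝ) * (1 / ((φ k : ℝ) + 1))
      + L * (n * η + q * ∑ i, |t i - θ (φ k) i|)) atTop (𝓝 (q * 0 + L * (n * η + q * 0))) := by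
    refine Tendsto.add (Tendsto.const_mul _ ?_) (Tendsto.const_mul _ (Tendsto.const_add _ (Tendsto.const_mul _ ?_)))
    · exact (tendsto_one_div_add_atTop_nhds_zero_nat (𝕜 := ℝ)).comp hφ.tendsto_atTop
    · have h2 : Tendsto (fun k => ∑ i, |t i - θ (φ k) i|) atTop (𝓝 (∑ i, |t i - t i|)) :=
        tendsto_finsetSum _ fun i _ => ((hlim i).const_sub (t i)).abs
      simpa using h2
  have h2 := ge_of_tendsto' hlim2 (fun k => hmain (φ k))
  have h3 := hpos p hpne
  have h4 : (q : ℝ) * 0 + L * (n * η + q * 0) = L * (n * η) := by ring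
  rw [h4] at h2
  linarith

end

theorem finite_nm {n : ℕ} (B : ℝ) : {x : V n | (nm x : ℝ) ≤ B}.Finite := by
  obtain ⟨m, hm⟩ := exists_nat_ge B
  refine Set.Finite.subset (Set.finite_Icc (fun _ : Fin n => -(m : ℤ)) (fun _ => (m : ℤ))) ?_
  intro x hx
  have h1 : ∀ i, (x i).natAbs ≤ m := by
    intro i
    have h2 : (x i).natAbs ≤ nm x := by
      unfold nm
      exact single_le_sum (f := fun i => (x i).natAbs) (fun i _ => Nat.zero_le _) (mem_univ i)
    have h3 : (nm x : ℝ) ≤ m := le_trans hx hm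
    have h4 : nm x ≤ m := by exact_mod_cast h3
    omega
  constructor
  · intro i
    have := h1 i
    show -(m : ℤ) ≤ x i
    omega
  · intro i
    have := h1 i
    show x i ≤ (m : ℤ)
    omega

namespace Fan

variable {n : ℕ} (F : Fan n) (f : V n → ℝ)

theorem cc_eq_sum {x : V n} {T : Finset (V n)} (h : (F.dc x).support ⊆ T) :
    F.cc f x = ∑ u ∈ T, (F.dc x u : ℝ) * f u := by
  unfold cc W
  rw [Finsupp.linearCombination_apply, Finsupp.sum_of_support_subset _ h]
  · exact sum_congr rfl fun u _ => by rw [zsmul_eq_mul]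
  · intro i _
    exact zero_smul _ _

theorem cc_pos {ε : ℝ} (hε : 0 < ε) (hf : ∀ T ∈ F.cones, ∀ u ∈ T, ε ≤ f u) {x : V n} (hx : x ≠ 0) :
    ε ≤ F.cc f x := by
  rw [F.cc_eq_sum f (F.dc_supp x)]
  have h1 : F.dc x ≠ 0 := by
    intro h
    apply hx
    rw [← F.dc_tot x, h, map_zero]
  obtain ⟨u, hu⟩ := Finsupp.support_nonempty_iff.2 h1
  have h2 := Finsupp.mem_support_iff.1 hu
  have h3 := F.dc_nonneg x u
  have h4 : (1 : ℝ) ≤ F.dc x u := by
    have : (1 : ℤ) ≤ F.dc x u := by omega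
    exact_mod_cast this
  have h5 := hf _ (F.cn_mem x) u (F.dc_supp x hu)
  have h6 : (F.dc x u : ℝ) * f u ≤ ∑ u ∈ F.cn x, (F.dc x u : ℝ) * f u := by
    refine single_le_sum (f := fun u => (F.dc x u : ℝ) * f u) (fun v hv => ?_) (F.dc_supp x hu)
    have h7 := F.dc_nonneg x v
    have h8 := hf _ (F.cn_mem x) v hv
    have h9 : (0 : ℝ) ≤ F.dc x v := by exact_mod_cast h7
    exact mul_nonneg h9 (by linarith)
  nlinarith

/-- **Main theorem on abstract fans.** -/
theorem main {ε : ℝ} (hε : 0 < ε) (hf : ∀ T ∈ F.cones, ∀ u ∈ T, ε ≤ f u)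
    (hg : ∀ δ : ℝ, 0 < δ → ∃ C : ℝ, ∀ T ∈ F.cones, ∀ u ∈ T, f u ≤ δ * nm u + C)
    (hE : F.Exch f) :
    F.cones.Finite ∧ ∀ v : Fin n → ℝ, ∃ T ∈ F.cones, ∃ a : V n → ℝ, (∀ u, 0 ≤ a u) ∧
      ∀ i, v i = ∑ u ∈ T, a u * (u i : ℝ) := by
  classical
  have hsub := F.subadd f hE
  have hhom := F.cc_nsmul f
  have hpos : ∀ x, x ≠ 0 → ε ≤ F.cc f x := fun x hx => F.cc_pos f hε hf hx
  obtain ⟨δ, hδ, hδc⟩ := norm_bound hε hsub hhom hpos
  have h0 : F.cc f 0 = 0 := by
    have := hhom 0 0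
    simpa using this
  have hnn : ∀ x, 0 ≤ F.cc f x := by
    intro x
    by_cases h : x = 0
    · rw [h, h0]
    · exact hε.le.trans (hpos x h)
  obtain ⟨L, hL0, hL⟩ := lip_bound hsub hhom hnn
  -- finiteness
  have hfin : F.cones.Finite := by
    obtain ⟨C, hC⟩ := hg (δ / 2) (by linarith)
    have h1 : {u : V n | ∃ T ∈ F.cones, u ∈ T}.Finite := by
      refine (finite_nm (n := n) (2 * C / δ)).subset ?_
      rintro u ⟨T, hT, hu⟩
      have h2 := hC T hT u hu
      have h3 : F.cc f u = f u := by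
        unfold cc
        rw [F.dc_gen hT hu, W_single]
        simp
      have h4 := hδc u
      rw [h3] at h4
      show (nm u : ℝ) ≤ 2 * C / δ
      rw [le_div_iff₀ hδ]
      nlinarith
    have h2 : F.cones ⊆ (h1.toFinset.powerset : Set (Finset (V n))) := by
      intro T hT
      rw [mem_coe, mem_powerset]
      intro u hu
      rw [Set.Finite.mem_toFinset]
      exact ⟨T, hT, hu⟩
    exact (Finset.finite_toSet _).subset h2
  refine ⟨hfin, fun v => ?_⟩
  -- real completeness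
  set x : ℕ → V n := fun k i => ⌊((k : ℝ) + 1) * v i⌋ with hx
  have hpig : ∃ T ∈ F.cones, ∃ ψ : ℕ → ℕ, StrictMono ψ ∧ ∀ k, F.cn (x (ψ k)) = T := by
    by_contra hcon
    push Not at hcon
    have h1 : ∀ T ∈ F.cones, ∃ K, ∀ k ≥ K, F.cn (x k) ≠ T := by
      intro T hT
      by_contra h2
      push Not at h2
      obtain ⟨ψ, hψ, hψ2⟩ := Filter.extraction_of_frequently_atTop
        (P := fun k => F.cn (x k) = T) (by
          rw [Filter.frequently_atTop]
          intro K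
          obtain ⟨k, hk, hk2⟩ := h2 K
          exact ⟨k, hk, hk2⟩)
      obtain ⟨k, hk⟩ := hcon T hT ψ hψ
      exact hk (hψ2 k)
    choose! K hK using h1
    set M : ℕ := hfin.toFinset.sup K with hM
    have h2 : F.cn (x M) ∈ F.cones := F.cn_mem _
    refine hK _ h2 M ?_ rfl
    exact Finset.le_sup (f := K) (hfin.mem_toFinset.2 h2)
  obtain ⟨T, hT, ψ, hψ, hψT⟩ := hpig
  -- the coefficients
  set A : ℕ → T → ℝ := fun k u => (F.dc (x (ψ k)) (u : V n) : ℝ) / ((ψ k : ℝ) + 1) with hA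
  have hk1 : ∀ k, (0 : ℝ) < (ψ k : ℝ) + 1 := fun k => by positivity
  have hxn : ∀ k, (nm (x (ψ k)) : ℝ) ≤ ((ψ k : ℝ) + 1) * ∑ i, (|v i| + 1) := by
    intro k
    rw [nm_cast, mul_sum]
    refine sum_le_sum fun i _ => ?_
    have h1 := Int.floor_le (((ψ k : ℝ) + 1) * v i)
    have h2 := Int.lt_floor_add_one (((ψ k : ℝ) + 1) * v i)
    have h3 : |((ψ k : ℝ) + 1) * v i| = ((ψ k : ℝ) + 1) * |v i| := by
      rw [abs_mul, abs_of_pos (hk1 k)]
    have h4 : (1 : ℝ) ≤ (ψ k : ℝ) + 1 := by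
      have : (0 : ℝ) ≤ ψ k := Nat.cast_nonneg _
      linarith
    have h5 : |((x (ψ k) i : ℤ) : ℝ) - ((ψ k : ℝ) + 1) * v i| ≤ 1 := by
      rw [abs_le]
      constructor
      · show -1 ≤ ((⌊((ψ k : ℝ) + 1) * v i⌋ : ℤ) : ℝ) - ((ψ k : ℝ) + 1) * v i
        linarith
      · show ((⌊((ψ k : ℝ) + 1) * v i⌋ : ℤ) : ℝ) - ((ψ k : ℝ) + 1) * v i ≤ 1
        linarith
    have h6 := abs_sub_abs_le_abs_sub ((x (ψ k) i : ℤ) : ℝ) (((ψ k : ℝ) + 1) * v i)
    rw [h3] at h6
    nlinarith
  set B : ℝ := L * (∑ i, (|v i| + 1)) / ε with hB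
  have hAb : ∀ k u, A k u ∈ Set.Icc 0 B := by
    intro k u
    have h1 := F.dc_nonneg (x (ψ k)) (u : V n)
    have h1' : (0 : ℝ) ≤ F.dc (x (ψ k)) (u : V n) := by exact_mod_cast h1
    refine ⟨div_nonneg h1' (hk1 k).le, ?_⟩
    have h2 : (F.dc (x (ψ k)) (u : V n) : ℝ) * f u ≤ F.cc f (x (ψ k)) := by
      rw [F.cc_eq_sum f (F.dc_supp (x (ψ k)))]
      refine single_le_sum (f := fun u => (F.dc (x (ψ k)) u : ℝ) * f u) (fun w hw => ?_)
        (by rw [hψT k]; exact u.2)
      have h7 := F.dc_nonneg (x (ψ k)) w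
      have h8 := hf _ (F.cn_mem (x (ψ k))) w hw
      have h9 : (0 : ℝ) ≤ F.dc (x (ψ k)) w := by exact_mod_cast h7
      exact mul_nonneg h9 (by linarith)
    have h3 := hL (x (ψ k))
    have h4 := hf T hT u u.2
    have h5 : (F.dc (x (ψ k)) (u : V n) : ℝ) * ε ≤ L * (((ψ k : ℝ) + 1) * ∑ i, (|v i| + 1)) := by
      have h6 := mul_le_mul_of_nonneg_left h4 h1'
      have h7 := mul_le_mul_of_nonneg_left (hxn k) hL0
      linarith
    rw [hA, hB]
    simp only
    rw [div_le_div_iff₀ (hk1 k) hε]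
    linarith
  have hKc : IsCompact (Set.pi Set.univ (fun _ : T => Set.Icc (0 : ℝ) B)) :=
    isCompact_univ_pi fun _ => isCompact_Icc
  obtain ⟨a, ha, φ, hφ, hlim⟩ := hKc.tendsto_subseq (x := A) (fun k => by
    intro u _
    exact hAb k u)
  rw [tendsto_pi_nhds] at hlim
  refine ⟨T, hT, fun u => if h : u ∈ T then a ⟨u, h⟩ else 0, fun u => ?_, fun i => ?_⟩
  · by_cases h : u ∈ T
    · simp only [h, dif_pos]
      exact (ha ⟨u, h⟩ (Set.mem_univ _)).1
    · simp only [h, dif_neg, not_false_iff]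
      exact le_rfl
  · have hs : ∑ u ∈ T, (if h : u ∈ T then a ⟨u, h⟩ else 0) * (u i : ℝ) = ∑ u : T, a u * ((u : V n) i : ℝ) := by
      rw [← Finset.sum_coe_sort T]
      exact sum_congr rfl fun u _ => by simp
    rw [hs]
    have h1 : Tendsto (fun k => ∑ u : T, (A ∘ φ) k u * ((u : V n) i : ℝ)) atTop
        (𝓝 (∑ u : T, a u * ((u : V n) i : ℝ))) :=
      tendsto_finsetSum _ fun u _ => (hlim u).mul_const _
    have h2 : ∀ k, ∑ u : T, (A ∘ φ) k u * ((u : V n) i : ℝ)
        = ((x (ψ (φ k)) i : ℤ) : ℝ) / ((ψ (φ k) : ℝ) + 1) := by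
      intro k
      have h3 := congrFun (F.dc_tot (x (ψ (φ k)))) i
      rw [Fan.tot_eq (F.dc (x (ψ (φ k)))) (F.dc_supp (x (ψ (φ k)))), hψT, Finset.sum_apply] at h3
      rw [← h3]
      push_cast
      rw [sum_div, ← Finset.sum_coe_sort T]
      refine sum_congr rfl fun u _ => ?_
      rw [hA]
      simp only [Function.comp_apply, Pi.smul_apply, smul_eq_mul, Int.cast_mul]
      ring
    rw [funext h2] at h1
    have h4 : Tendsto (fun k => ((x (ψ (φ k)) i : ℤ) : ℝ) / ((ψ (φ k) : ℝ) + 1)) atTop (𝓝 (v i)) := by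
      have h5 : Tendsto (fun k : ℕ => ((x k i : ℤ) : ℝ) / ((k : ℝ) + 1)) atTop (𝓝 (v i)) := by
        have h6 : ∀ k : ℕ, v i - 1 / ((k : ℝ) + 1) ≤ ((x k i : ℤ) : ℝ) / ((k : ℝ) + 1) := by
          intro k
          have hk : (0 : ℝ) < (k : ℝ) + 1 := by positivity
          rw [le_div_iff₀ hk, sub_mul, one_div, inv_mul_cancel₀ hk.ne']
          have h7 := Int.lt_floor_add_one (((k : ℝ) + 1) * v i)
          show v i * ((k : ℝ) + 1) - 1 ≤ ((⌊((k : ℝ) + 1) * v i⌋ : ℤ) : ℝ)
          linarith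
        have h8 : ∀ k : ℕ, ((x k i : ℤ) : ℝ) / ((k : ℝ) + 1) ≤ v i := by
          intro k
          have hk : (0 : ℝ) < (k : ℝ) + 1 := by positivity
          rw [div_le_iff₀ hk]
          have h7 := Int.floor_le (((k : ℝ) + 1) * v i)
          show ((⌊((k : ℝ) + 1) * v i⌋ : ℤ) : ℝ) ≤ v i * ((k : ℝ) + 1)
          linarith
        refine tendsto_of_tendsto_of_tendsto_of_le_of_le ?_ tendsto_const_nhds h6 h8
        have h9 := (tendsto_one_div_add_atTop_nhds_zero_nat (𝕜 := ℝ)).const_sub (v i)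
        simpa using h9
      exact h5.comp ((hψ.comp hφ).tendsto_atTop)
    exact tendsto_nhds_unique h4 h1

end Fan

end Pool.Agent.Helper52.DW
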