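import Pool.Agent.Helper7.Dem.Plane

/-!
# The rays of a tau-rigid pair (MP_7dd0aa_al)
-/

universe u

set_option autoImplicit false

namespace Pool.Agent.Helper52.DW

open Dem

/-- The generators of the cone of a `τ`-rigid pair: the `g`-vectors of the `M i` and the negatives of the classes of the
`Q j`. -/
noncomputable def rays {k A : Type u} [Field k] [Ring A] [Algebra k A] {n : ℕ} (T : TRPair k A)
    (S : Fin n → FDMod k A) : Finset (Fin n → ℤ) :=
  Finset.univ.image (Sum.elim (fun i l => (T.X i).g S l) (fun j l => -(hd k A (T.Q j) (S l) : ℤ)))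

end Pool.Agent.Helper52.DW
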