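import Pool.Agent.Helper52.DW.Ana
import Pool.Agent.Helper52.DW.Rays

/-!
# The tau-tilting fan as an abstract fan with a compatibility degree (MP_7dd0aa_al)
-/

universe u

set_option autoImplicit false
set_option linter.unusedSectionVars false

namespace Pool.Agent.Helper52.DW

open Dem

variable {k A : Type u} [Field k] [Ring A] [Algebra k A]

section

variable {ι κ : Type} {X : ι → Pres k A} {Q : κ → FDMod k A} [Fintype ι] [Fintype κ] {n : ℕ}
  {S : Fin n → FDMod k A}

/-- If the class of `U` is in the cone of the family and `U` is `EZ` on `N` then the members of the family with nonzero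
coefficients are `EZ` on `N`. -/
theorem transfer_left (hS : CompleteSimples S) (h : Rig X Q) {U : Pres k A} (N : FDMod k A) (hN : EZ U N)
    {a : ι → ℝ} {b : κ → ℝ} (ha : ∀ i, 0 ≤ a i) (hb : ∀ j, 0 ≤ b j)
    (hcone : ∀ l, (U.g S l : ℝ) = ∑ i, a i * ((X i).g S l : ℝ) -
      ∑ j, b j * (hd k A (Q j) (S l) : ℝ)) :
    (∀ i, a i ≠ 0 → EZ (X i) N) ∧ (∀ j, b j ≠ 0 → hd k A (Q j) N = 0) := by
  let C : Set (Pres k A) := {Y | (∃ i, a i ≠ 0 ∧ Y = X i) ∨
    (∃ j, b j ≠ 0 ∧ Y = shift (Q j) (h.projQ j))}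
  have hC : ∀ i, ∀ Y ∈ C, EZ Y (X i).M := by
    rintro i Y (⟨i', -, rfl⟩ | ⟨j, -, rfl⟩)
    · exact h.rigid i' i
    · rw [EZ_shift_iff]
      exact h.homzero i j
  set L := FDMod.of k A (N ⧸ tzf C N) with hL
  have h2 := chi_cone hS h.projQ hcone L
  have h3 : ∀ i', (chi k (X i') L : ℝ) = - (ed k (X i') L : ℝ) := by
    intro i'
    have h4 : HZ (X i') L := fun φ => map_quot_tzf_zero (hC i') φ
    rw [chi_of_HZ (k := k) (X i') h4]
    push_cast
    ring
  have hEL : EZ U L := EZ_of_surj (tzf C N).mkQ (Submodule.mkQ_surjective _) hN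
  rw [chi_of_EZ (k := k) U hEL] at h2
  have h5 : ∑ i, a i * (ed k (X i) L : ℝ) + ∑ j, b j * (hd k A (Q j) L : ℝ) ≤ 0 := by
    have e1 : ∑ i, a i * (chi k (X i) L : ℝ) = - ∑ i, a i * (ed k (X i) L : ℝ) := by
      rw [← Finset.sum_neg_distrib]
      exact Finset.sum_congr rfl fun i _ => by rw [h3 i]; ring
    rw [e1] at h2
    have e2 : (0 : ℝ) ≤ ((hd k A U.M L : ℕ) : ℤ) := by positivity
    linarith
  have p1 : ∀ i, 0 ≤ a i * (ed k (X i) L : ℝ) := fun i => mul_nonneg (ha i) (by positivity)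
  have p2 : ∀ j, 0 ≤ b j * (hd k A (Q j) L : ℝ) := fun j => mul_nonneg (hb j) (by positivity)
  have s1 : 0 ≤ ∑ i, a i * (ed k (X i) L : ℝ) := Finset.sum_nonneg fun i _ => p1 i
  have s2 : 0 ≤ ∑ j, b j * (hd k A (Q j) L : ℝ) := Finset.sum_nonneg fun j _ => p2 j
  have z1 : ∑ i, a i * (ed k (X i) L : ℝ) = 0 := by linarith
  have z2 : ∑ j, b j * (hd k A (Q j) L : ℝ) = 0 := by linarith
  have y1 : ∀ i, a i ≠ 0 → EZ (X i) L := by
    intro i hi
    have h6 := (Finset.sum_eq_zero_iff_of_nonneg fun i _ => p1 i).1 z1 i (Finset.mem_univ i)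
    rcases mul_eq_zero.1 h6 with h7 | h7
    · exact absurd h7 hi
    · rw [← ed_eq_zero_iff (k := k)]
      exact_mod_cast h7
  have y2 : ∀ j, b j ≠ 0 → hd k A (Q j) L = 0 := by
    intro j hj
    have h6 := (Finset.sum_eq_zero_iff_of_nonneg fun j _ => p2 j).1 z2 j (Finset.mem_univ j)
    rcases mul_eq_zero.1 h6 with h7 | h7
    · exact absurd h7 hj
    · exact_mod_cast h7
  have hall : ∀ Y ∈ C, EZ Y N := by
    intro Y hY
    refine EZ_of_quot (k := k) (tzf C N) (EZ_tzf (k := k) hY) ?_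
    rcases hY with ⟨i, hi, rfl⟩ | ⟨j, hj, rfl⟩
    · exact y1 i hi
    · exact (EZ_shift_iff (Q j) (h.projQ j) _).2 (y2 j hj)
  refine ⟨fun i hi => hall _ (Or.inl ⟨i, hi, rfl⟩), fun j hj => ?_⟩
  have := hall _ (Or.inr ⟨j, hj, rfl⟩)
  rwa [EZ_shift_iff] at this

/-- If the class of `U` is in the cone of the family and `Y` is `EZ` on the module of `U` then `Y` is `EZ` on the modules
of the members of the family with nonzero coefficients. -/
theorem transfer_right [Module.Finite k A] (hS : CompleteSimples S) (h : Rig X Q) {U Y : Pres k A} (hY : EZ Y U.M)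
    {a : ι → ℝ} {b : κ → ℝ} (ha : ∀ i, 0 ≤ a i) (hb : ∀ j, 0 ≤ b j)
    (hcone : ∀ l, (U.g S l : ℝ) = ∑ i, a i * ((X i).g S l : ℝ) -
      ∑ j, b j * (hd k A (Q j) (S l) : ℝ)) :
    ∀ i, a i ≠ 0 → EZ Y (X i).M := by
  let C : Set (Pres k A) := {Y | (∃ i, a i ≠ 0 ∧ Y = X i) ∨
    (∃ j, b j ≠ 0 ∧ Y = shift (Q j) (h.projQ j))}
  have hC : ∀ i, ∀ Y ∈ C, EZ Y (X i).M := by
    rintro i Y (⟨i', -, rfl⟩ | ⟨j, -, rfl⟩)
    · exact h.rigid i' i
    · rw [EZ_shift_iff]
      exact h.homzero i j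
  set L := FDMod.of k A (tzf C Y.Tau) with hL
  have h2 := chi_cone hS h.projQ hcone L
  have hUY : hd k A U.M Y.Tau = 0 := by
    rw [hd_Tau, ed_eq_zero_iff (k := k)]
    exact hY
  have h3 : (chi k U L : ℝ) ≤ 0 := by
    have e1 := chi_le_hd (k := k) (N := tzf C Y.Tau) U
    have e2 : hd k A U.M (tzf C Y.Tau) ≤ hd k A U.M Y.Tau :=
      hd_le_of_inj (tzf C Y.Tau).subtype Subtype.val_injective
    rw [hUY] at e2
    have e3 : chi k U (tzf C Y.Tau) ≤ 0 := by omega
    exact_mod_cast e3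
  have h4 : ∀ i, a i * (chi k (X i) L : ℝ) = a i * (hd k A (X i).M L : ℝ) := by
    intro i
    by_cases hi : a i = 0
    · rw [hi, zero_mul, zero_mul]
    · have : EZ (X i) L := EZ_tzf (k := k) (Or.inl ⟨i, hi, rfl⟩)
      rw [chi_of_EZ (k := k) (X i) this]
      push_cast
      rfl
  have h5 : ∀ j, b j * (hd k A (Q j) L : ℝ) = 0 := by
    intro j
    by_cases hj : b j = 0
    · rw [hj, zero_mul]
    · have : EZ (shift (Q j) (h.projQ j)) L := EZ_tzf (k := k) (Or.inr ⟨j, hj, rfl⟩)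
      rw [EZ_shift_iff] at this
      rw [this]
      simp
  rw [h2, Finset.sum_congr rfl fun i _ => h4 i, Finset.sum_eq_zero fun j _ => h5 j, sub_zero] at h3
  have p1 : ∀ i, 0 ≤ a i * (hd k A (X i).M L : ℝ) := fun i => mul_nonneg (ha i) (by positivity)
  have z1 : ∑ i, a i * (hd k A (X i).M L : ℝ) = 0 := le_antisymm h3 (Finset.sum_nonneg fun i _ => p1 i)
  intro i hi
  have h6 := (Finset.sum_eq_zero_iff_of_nonneg fun i _ => p1 i).1 z1 i (Finset.mem_univ i)
  have h7 : hd k A (X i).M L = 0 := by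
    rcases mul_eq_zero.1 h6 with h7 | h7
    · exact absurd h7 hi
    · exact_mod_cast h7
  have h7' : hd k A (X i).M (tzf C Y.Tau) = 0 := h7
  rw [hd_eq_zero_iff] at h7'
  rw [← ed_eq_zero_iff (k := k), ← hd_Tau, hd_eq_zero_iff]
  intro φ
  have h8 : LinearMap.range φ ≤ tzf C Y.Tau := le_tzf fun Z hZ => EZ_range (k := k) φ (hC i Z hZ)
  have h9 := h7' (φ.codRestrict (tzf C Y.Tau) fun x => h8 ⟨x, rfl⟩)
  refine LinearMap.ext fun x => ?_
  exact congrArg Subtype.val (LinearMap.congr_fun h9 x)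

/-- two rigid objects with classes in one cone are compatible -/
theorem EZ_of_cones [Module.Finite k A] (hS : CompleteSimples S) (h : Rig X Q) {U V : Pres k A} (hU : EZ U U.M)
    (hV : EZ V V.M) {a a' : ι → ℝ} {b b' : κ → ℝ} (ha : ∀ i, 0 ≤ a i)
    (hcone : ∀ l, (U.g S l : ℝ) = ∑ i, a i * ((X i).g S l : ℝ) -
      ∑ j, b j * (hd k A (Q j) (S l) : ℝ)) (ha' : ∀ i, 0 ≤ a' i) (hb' : ∀ j, 0 ≤ b' j)
    (hcone' : ∀ l, (V.g S l : ℝ) = ∑ i, a' i * ((X i).g S l : ℝ) -
      ∑ j, b' j * (hd k A (Q j) (S l) : ℝ)) : EZ U V.M := by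
  have h1 := h.EZ_of_cone hS hU ha hcone
  rw [← ed_eq_zero_iff (k := k), ← hd_Tau]
  have h2 := hd_eq_chi_tz (k := k) (N := U.Tau) hV
  have h3 := chi_cone hS h.projQ hcone' (FDMod.of k A (tz V U.Tau))
  have h4 : ∀ i, a' i * (chi k (X i) (FDMod.of k A (tz V U.Tau)) : ℝ) ≤ 0 := by
    intro i
    have e1 := chi_le_hd (k := k) (N := tz V U.Tau) (X i)
    have e2 : hd k A (X i).M (tz V U.Tau) ≤ hd k A (X i).M U.Tau :=
      hd_le_of_inj (tz V U.Tau).subtype Subtype.val_injective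
    rw [hd_Tau, (ed_eq_zero_iff (k := k) U).2 (h1 i)] at e2
    have e3 : chi k (X i) (tz V U.Tau) ≤ 0 := by omega
    have e4 : (chi k (X i) (tz V U.Tau) : ℝ) ≤ 0 := by exact_mod_cast e3
    exact mul_nonpos_of_nonneg_of_nonpos (ha' i) e4
  have h5 : 0 ≤ ∑ j, b' j * (hd k A (Q j) (FDMod.of k A (tz V U.Tau)) : ℝ) :=
    Finset.sum_nonneg fun j _ => mul_nonneg (hb' j) (by positivity)
  have h6 : (chi k V (FDMod.of k A (tz V U.Tau)) : ℝ) ≤ 0 := by
    rw [h3]
    have := Finset.sum_nonpos (s := Finset.univ) fun i _ => h4 i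
    linarith
  have h7 : chi k V (tz V U.Tau) ≤ 0 := by exact_mod_cast h6
  omega

end

section

variable {n : ℕ} {S : Fin n → FDMod k A}

theorem rays_eq {T : TRPair k A} : rays T S = Finset.univ.image (Gv T.X T.Q S) := rfl

theorem mem_rays {T : TRPair k A} {u : V n} : u ∈ rays T S ↔ ∃ s, Gv T.X T.Q S s = u := by
  rw [rays_eq]
  simp

theorem Gv_mem {T : TRPair k A} (s : Fin T.p ⊕ Fin T.q) : Gv T.X T.Q S s ∈ rays T S := mem_rays.2 ⟨s, rfl⟩

theorem Gv_inj [IsAlgClosed k] [Module.Finite k A] (hS : CompleteSimples S) (T : TRPair k A) :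
    Function.Injective (Gv T.X T.Q S) := by
  classical
  intro s s' hss
  by_contra hne
  have h1 := T.isPair.rig.linInd' hS (c := fun t => if t = s then (1 : ℝ) else if t = s' then -1 else 0)
    (fun l => by
      rw [sum_two hne, hss]
      ring) s
  simp at h1

theorem sum_rays {N : Type} [AddCommMonoid N] [IsAlgClosed k] [Module.Finite k A] (hS : CompleteSimples S)
    (T : TRPair k A) (F : V n → N) : ∑ u ∈ rays T S, F u = ∑ s, F (Gv T.X T.Q S s) := by
  rw [rays_eq]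
  exact Finset.sum_image fun s _ s' _ h => Gv_inj hS T h

theorem card_rays [IsAlgClosed k] [Module.Finite k A] (hS : CompleteSimples S) (T : TRPair k A) :
    (rays T S).card = T.p + T.q := by
  rw [rays_eq, Finset.card_image_of_injective _ (Gv_inj hS T), Finset.card_univ, Fintype.card_sum, Fintype.card_fin,
    Fintype.card_fin]

theorem rep_coord [IsAlgClosed k] [Module.Finite k A] (hS : CompleteSimples S) {T : TRPair k A} {a : V n →₀ ℤ}
    {x : V n} (h : Rep (rays T S) a x) (l : Fin n) :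
    (x l : ℝ) = ∑ s, (a (Gv T.X T.Q S s) : ℝ) * (Gv T.X T.Q S s l : ℝ) := by
  have h1 := congrFun h.2.2 l
  rw [Fan.tot_eq a h.2.1, sum_rays hS T, Finset.sum_apply] at h1
  rw [← h1]
  push_cast
  exact Finset.sum_congr rfl fun s _ => by simp

/-- merging -/
theorem merge_gen [IsAlgClosed k] [Module.Finite k A] (hS : CompleteSimples S) {U W : Pres k A}
    {T T' : TRPair k A} {c : Fin T.p ⊕ Fin T.q → ℝ} {c' : Fin T'.p ⊕ Fin T'.q → ℝ} (hc : ∀ s, 0 ≤ c s)
    (hc' : ∀ s, 0 ≤ c' s) (hU : ∀ l, (U.g S l : ℝ) = ∑ s, c s * (Gv T.X T.Q S s l : ℝ))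
    (hW : ∀ l, (W.g S l : ℝ) = ∑ s, c' s * (Gv T'.X T'.Q S s l : ℝ))
    (hUW : EZ U W.M) (hWU : EZ W U.M) :
    ∃ T'' : TRPair k A, (∀ s, c s ≠ 0 → Gv T.X T.Q S s ∈ rays T'' S) ∧
      ∀ s, c' s ≠ 0 → Gv T'.X T'.Q S s ∈ rays T'' S := by
  classical
  obtain ⟨p, q, X, Q, hpair⟩ := T
  obtain ⟨p', q', X', Q', hpair'⟩ := T'
  dsimp only at c c' hc hc' hU hW ⊢
  have hrig := hpair.rig
  have hrig' := hpair'.rig
  let ι := {i : Fin p // c (Sum.inl i) ≠ 0} ⊕ {j : Fin p' // c' (Sum.inl j) ≠ 0 ∧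
    ∀ i, c (Sum.inl i) ≠ 0 → IsEmpty ((X i).M ≃ₗ[A] (X' j).M)}
  let κ := {i : Fin q // c (Sum.inr i) ≠ 0} ⊕ {j : Fin q' // c' (Sum.inr j) ≠ 0 ∧
    ∀ i, c (Sum.inr i) ≠ 0 → IsEmpty (Q i ≃ₗ[A] Q' j)}
  let Z : ι → Pres k A := Sum.elim (fun i => X i.1) (fun j => X' j.1)
  let R : κ → FDMod k A := Sum.elim (fun i => Q i.1) (fun j => Q' j.1)
  -- mutual compatibility
  have hUX' : ∀ j, c' (Sum.inl j) ≠ 0 → EZ U (X' j).M :=
    transfer_right hS hrig' hUW (fun i => hc' (Sum.inl i)) (fun j => hc' (Sum.inr j)) (cone_convert hW)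
  have hWX : ∀ j, c (Sum.inl j) ≠ 0 → EZ W (X j).M :=
    transfer_right hS hrig hWU (fun i => hc (Sum.inl i)) (fun j => hc (Sum.inr j)) (cone_convert hU)
  have hXX' : ∀ i, c (Sum.inl i) ≠ 0 → ∀ j, c' (Sum.inl j) ≠ 0 → EZ (X i) (X' j).M := by
    intro i hi j hj
    exact (transfer_left hS hrig (FDMod.of k A (X' j).M) (hUX' j hj) (fun i => hc (Sum.inl i))
      (fun j => hc (Sum.inr j)) (cone_convert hU)).1 i hi
  have hX'X : ∀ i, c (Sum.inl i) ≠ 0 → ∀ j, c' (Sum.inl j) ≠ 0 → EZ (X' j) (X i).M := by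
    intro i hi j hj
    exact (transfer_left hS hrig' (FDMod.of k A (X i).M) (hWX i hi) (fun i => hc' (Sum.inl i))
      (fun j => hc' (Sum.inr j)) (cone_convert hW)).1 j hj
  have hQX' : ∀ i, c (Sum.inr i) ≠ 0 → ∀ j, c' (Sum.inl j) ≠ 0 →
      hd k A (Q i) (X' j).M = 0 := by
    intro i hi j hj
    exact (transfer_left hS hrig (FDMod.of k A (X' j).M) (hUX' j hj) (fun i => hc (Sum.inl i))
      (fun j => hc (Sum.inr j)) (cone_convert hU)).2 i hi
  have hQ'X : ∀ i, c (Sum.inl i) ≠ 0 → ∀ j, c' (Sum.inr j) ≠ 0 →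
      hd k A (Q' j) (X i).M = 0 := by
    intro i hi j hj
    exact (transfer_left hS hrig' (FDMod.of k A (X i).M) (hWX i hi) (fun i => hc' (Sum.inl i))
      (fun j => hc' (Sum.inr j)) (cone_convert hW)).2 j hj
  have hR : Rig Z R :=
    { indec := by
        rintro (i | j)
        · exact hrig.indec i.1
        · exact hrig'.indec j.1
      noniso := by
        rintro (i | i) (j | j) hij
        · exact hrig.noniso i.1 j.1 (fun hh => hij (by rw [Subtype.ext hh]))
        · exact j.2.2 i.1 i.2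
        · exact ⟨fun e => (i.2.2 j.1 j.2).false e.symm⟩
        · exact hrig'.noniso i.1 j.1 (fun hh => hij (by rw [Subtype.ext hh]))
      rigid := by
        rintro (i | i) (j | j)
        · exact hrig.rigid i.1 j.1
        · exact hXX' i.1 i.2 j.1 j.2.1
        · exact hX'X j.1 j.2 i.1 i.2.1
        · exact hrig'.rigid i.1 j.1
      projQ := by
        rintro (i | j)
        · exact hrig.projQ i.1
        · exact hrig'.projQ j.1
      indecQ := by
        rintro (i | j)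
        · exact hrig.indecQ i.1
        · exact hrig'.indecQ j.1
      nonisoQ := by
        rintro (i | i) (j | j) hij
        · exact hrig.nonisoQ i.1 j.1 (fun hh => hij (by rw [Subtype.ext hh]))
        · exact j.2.2 i.1 i.2
        · exact ⟨fun e => (i.2.2 j.1 j.2).false e.symm⟩
        · exact hrig'.nonisoQ i.1 j.1 (fun hh => hij (by rw [Subtype.ext hh]))
      homzero := by
        rintro (i | i) (j | j)
        · exact hrig.homzero i.1 j.1
        · exact hQ'X i.1 i.2 j.1 j.2.1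
        · exact hQX' j.1 j.2 i.1 i.2.1
        · exact hrig'.homzero i.1 j.1 }
  have hmin : ∀ i, (Z i).Minimal := by
    rintro (i | j)
    · exact hpair.minimal i.1
    · exact hpair'.minimal j.1
  let e := Fintype.equivFin ι
  let f := Fintype.equivFin κ
  have hP : IsTauRigidPair (Z ∘ e.symm) (R ∘ f.symm) := by
    refine Rig.tau ?_ (fun i => hmin _)
    exact { indec := fun i => hR.indec _
            noniso := fun i j hij => hR.noniso _ _ (fun hh => hij (e.symm.injective hh))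
            rigid := fun i j => hR.rigid _ _
            projQ := fun j => hR.projQ _
            indecQ := fun j => hR.indecQ _
            nonisoQ := fun i j hij => hR.nonisoQ _ _ (fun hh => hij (f.symm.injective hh))
            homzero := fun i j => hR.homzero _ _ }
  let T'' : TRPair k A := ⟨Fintype.card ι, Fintype.card κ, Z ∘ e.symm, R ∘ f.symm, hP⟩
  have hray : ∀ s : ι ⊕ κ, Gv Z R S s ∈ rays T'' S := by
    rintro (i | j)
    · refine mem_rays.2 ⟨Sum.inl (e i), ?_⟩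
      funext l
      show ((Z ∘ e.symm) (e i)).g S l = (Z i).g S l
      rw [Function.comp_apply, Equiv.symm_apply_apply]
    · refine mem_rays.2 ⟨Sum.inr (f j), ?_⟩
      funext l
      show -(hd k A ((R ∘ f.symm) (f j)) (S l) : ℤ) = -(hd k A (R j) (S l) : ℤ)
      rw [Function.comp_apply, Equiv.symm_apply_apply]
  have hgen : ∀ s, c s ≠ 0 → Gv X Q S s ∈ rays T'' S := by
    rintro (i | i) hi
    · exact hray (Sum.inl (Sum.inl ⟨i, hi⟩))
    · exact hray (Sum.inr (Sum.inl ⟨i, hi⟩))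
  refine ⟨T'', hgen, ?_⟩
  rintro (j | j) hj
  · by_cases hex : ∀ i, c (Sum.inl i) ≠ 0 → IsEmpty ((X i).M ≃ₗ[A] (X' j).M)
    · exact hray (Sum.inl (Sum.inr ⟨j, hj, hex⟩))
    · push Not at hex
      obtain ⟨i, hi, e⟩ := hex
      obtain ⟨e'⟩ := e
      have h1 : Gv X' Q' S (Sum.inl j) = Gv X Q S (Sum.inl i) := by
        funext l
        rw [Gv_inl, Gv_inl]
        have : (X i).g S l = (X' j).g S l :=
          chi_unique (hpair.minimal i) (hpair'.minimal j) e' (hS.simple l)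
        rw [this]
      rw [h1]
      exact hgen _ hi
  · by_cases hex : ∀ i, c (Sum.inr i) ≠ 0 → IsEmpty (Q i ≃ₗ[A] Q' j)
    · exact hray (Sum.inr (Sum.inr ⟨j, hj, hex⟩))
    · push Not at hex
      obtain ⟨i, hi, e⟩ := hex
      obtain ⟨e'⟩ := e
      have h1 : Gv X' Q' S (Sum.inr j) = Gv X Q S (Sum.inr i) := by
        funext l
        rw [Gv_inr, Gv_inr, hd_congr_left e']
      rw [h1]
      exact hgen _ hi

/-- compatibility degree is subadditive -/
theorem sub_left (hS : CompleteSimples S) {R X Y W : Pres k A} (hW : EZ W W.M)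
    (hg : ∀ l, W.g S l = X.g S l + Y.g S l) : ed k W R.M ≤ ed k X R.M + ed k Y R.M := by
  have hchi : ∀ L : FDMod k A, chi k W L = chi k X L + chi k Y L := by
    intro L
    rw [chi_eq_sum hS L W, chi_eq_sum hS L X, chi_eq_sum hS L Y, ← Finset.sum_add_distrib]
    refine Finset.sum_congr rfl fun l _ => ?_
    rw [hg l]
    ring
  have h1 := ed_eq_neg_chi_quot (k := k) (N := R.M) hW
  have h2 := hchi (FDMod.of k A (R.M ⧸ tz W R.M))
  change chi k W (R.M ⧸ tz W R.M) = chi k X (R.M ⧸ tz W R.M) + chi k Y (R.M ⧸ tz W R.M) at h2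
  have h3 := neg_chi_le_ed (k := k) (N := R.M ⧸ tz W R.M) X
  have h4 := neg_chi_le_ed (k := k) (N := R.M ⧸ tz W R.M) Y
  have h5 : ed k X (R.M ⧸ tz W R.M) ≤ ed k X R.M := ed_le_of_surj _ (Submodule.mkQ_surjective _)
  have h6 : ed k Y (R.M ⧸ tz W R.M) ≤ ed k Y R.M := ed_le_of_surj _ (Submodule.mkQ_surjective _)
  omega

theorem sub_right [Module.Finite k A] (hS : CompleteSimples S) {R X Y W : Pres k A} (hW : EZ W W.M)
    (hg : ∀ l, W.g S l = X.g S l + Y.g S l) : ed k R W.M ≤ ed k R X.M + ed k R Y.M := by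
  have hchi : ∀ L : FDMod k A, chi k W L = chi k X L + chi k Y L := by
    intro L
    rw [chi_eq_sum hS L W, chi_eq_sum hS L X, chi_eq_sum hS L Y, ← Finset.sum_add_distrib]
    refine Finset.sum_congr rfl fun l _ => ?_
    rw [hg l]
    ring
  have h1 := hd_eq_chi_tz (k := k) (N := R.Tau) hW
  have h2 := hchi (FDMod.of k A (tz W R.Tau))
  change chi k W (tz W R.Tau) = chi k X (tz W R.Tau) + chi k Y (tz W R.Tau) at h2
  have h3 := chi_le_hd (k := k) (N := tz W R.Tau) X
  have h4 := chi_le_hd (k := k) (N := tz W R.Tau) Y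
  have h5 : hd k A X.M (tz W R.Tau) ≤ hd k A X.M R.Tau :=
    hd_le_of_inj (tz W R.Tau).subtype Subtype.val_injective
  have h6 : hd k A Y.M (tz W R.Tau) ≤ hd k A Y.M R.Tau :=
    hd_le_of_inj (tz W R.Tau).subtype Subtype.val_injective
  rw [hd_Tau] at h1 h5 h6
  omega

end

section

variable {n : ℕ} {S : Fin n → FDMod k A} [IsAlgClosed k] [Module.Finite k A]
  (hS : CompleteSimples S) (hfan : ∀ v : Fin n → ℤ, InFan S (fun l => (v l : ℝ)))

/-- a rigid object with a given class -/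
noncomputable def UU (x : V n) : Pres k A := (exists_dec hS x (hfan x)).choose

theorem UU_rigid (x : V n) : EZ (UU hS hfan x) (UU hS hfan x).M := (exists_dec hS x (hfan x)).choose_spec.1

theorem UU_g (x : V n) (l : Fin n) : (UU hS hfan x).g S l = x l :=
  (exists_dec hS x (hfan x)).choose_spec.2.2 l

theorem UU_cone {T : TRPair k A} {a : V n →₀ ℤ} {x : V n} (h : Rep (rays T S) a x) (l : Fin n) :
    ((UU hS hfan x).g S l : ℝ) = ∑ s, (a (Gv T.X T.Q S s) : ℝ) * (Gv T.X T.Q S s l : ℝ) := by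
  rw [UU_g hS hfan x l]
  exact rep_coord hS h l

/-- the compatibility degree -/
noncomputable def mudeg (x y : V n) : ℕ :=
  ed k (UU hS hfan x) (UU hS hfan y).M + ed k (UU hS hfan y) (UU hS hfan x).M

/-- the `τ`-tilting fan as an abstract fan -/
noncomputable def fanOf : Fan n where
  cones := Set.range fun T : TRPair k A => rays T S
  mu := mudeg hS hfan
  int := by
    rintro _ ⟨T, rfl⟩ a x hx u hu
    have h1 := T.isPair.rig.integral hS (fun i => ((a (Gv T.X T.Q S (Sum.inl i)) : ℚ) : ℝ))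
      (fun j => ((a (Gv T.X T.Q S (Sum.inr j)) : ℚ) : ℝ)) x (fun l => by
        have h2 := hx l
        rw [sum_rays hS T, Fintype.sum_sum_type] at h2
        have h3 := congrArg (fun z : ℚ => (z : ℝ)) h2
        simp only [Gv_inl, Gv_inr] at h3
        push_cast at h3
        simp only [mul_neg, Finset.sum_neg_distrib] at h3
        rw [h3]
        ring)
    obtain ⟨s, rfl⟩ := mem_rays.1 hu
    rcases s with i | j
    · obtain ⟨z, hz⟩ := h1.1 i
      exact ⟨z, by exact_mod_cast hz⟩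
    · obtain ⟨z, hz⟩ := h1.2 j
      exact ⟨z, by exact_mod_cast hz⟩
  li := by
    rintro _ ⟨T, rfl⟩ a hx u hu
    have h1 := T.isPair.rig.linInd' hS (c := fun s => ((a (Gv T.X T.Q S s) : ℚ) : ℝ)) (fun l => by
        have h2 := hx l
        rw [sum_rays hS T] at h2
        have h3 := congrArg (fun z : ℚ => (z : ℝ)) h2
        push_cast at h3
        exact h3)
    obtain ⟨s, rfl⟩ := mem_rays.1 hu
    exact_mod_cast h1 s
  symm := fun x y => Nat.add_comm _ _
  self := by
    intro x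
    show ed k (UU hS hfan x) (UU hS hfan x).M + ed k (UU hS hfan x) (UU hS hfan x).M = 0
    rw [(ed_eq_zero_iff (k := k) _).2 (UU_rigid hS hfan x)]
  sub := by
    intro r x y
    have hg : ∀ l, (UU hS hfan (x + y)).g S l = (UU hS hfan x).g S l + (UU hS hfan y).g S l := by
      intro l
      rw [UU_g, UU_g, UU_g]
      rfl
    have h1 := sub_left hS (R := UU hS hfan r) (UU_rigid hS hfan (x + y)) hg
    have h2 := sub_right hS (R := UU hS hfan r) (UU_rigid hS hfan (x + y)) hg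
    unfold mudeg
    omega
  dec := by
    intro x y h
    have hchi : ∀ L : FDMod k A, chi k (UU hS hfan (x + y)) L
        = chi k (UU hS hfan x) L + chi k (UU hS hfan y) L := by
      intro L
      rw [chi_eq_sum hS L, chi_eq_sum hS L, chi_eq_sum hS L, ← Finset.sum_add_distrib]
      refine Finset.sum_congr rfl fun l _ => ?_
      rw [UU_g, UU_g, UU_g, Pi.add_apply]
      ring
    have h1 := star (UU_rigid hS hfan x) (UU_rigid hS hfan (x + y)) hchi
    have h2 := star' (UU_rigid hS hfan x) (UU_rigid hS hfan (x + y)) hchi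
    unfold mudeg at h ⊢
    omega
  cover := by
    intro x
    obtain ⟨p, q, X, Q, hpair, c, hc, hx⟩ := fan_integral hS x (hfan x)
    let T : TRPair k A := ⟨p, q, X, Q, hpair⟩
    refine ⟨rays T S, ⟨T, rfl⟩, ∑ s, Finsupp.single (Gv X Q S s) (c s), ?_, ?_, ?_⟩
    · intro u
      rw [Finsupp.finsetSum_apply]
      refine Finset.sum_nonneg fun s _ => ?_
      rw [Finsupp.single_apply]
      split_ifs
      · exact hc s
      · exact le_rfl
    · intro u hu
      rw [Finsupp.mem_support_iff, Finsupp.finsetSum_apply] at hu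
      obtain ⟨s, -, hs⟩ := Finset.exists_ne_zero_of_sum_ne_zero hu
      rw [Finsupp.single_apply] at hs
      by_cases h : Gv X Q S s = u
      · rw [← h]
        exact Gv_mem (T := T) s
      · rw [if_neg h] at hs
        exact absurd rfl hs
    · rw [map_sum]
      funext l
      rw [Finset.sum_apply, hx l]
      refine Finset.sum_congr rfl fun s _ => ?_
      unfold tot
      rw [Finsupp.linearCombination_single]
      simp
  compat := by
    rintro _ ⟨T, rfl⟩ a b x y hx hy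
    have ha : ∀ s, (0 : ℝ) ≤ (a (Gv T.X T.Q S s) : ℝ) := fun s => by exact_mod_cast hx.1 _
    have hb : ∀ s, (0 : ℝ) ≤ (b (Gv T.X T.Q S s) : ℝ) := fun s => by exact_mod_cast hy.1 _
    have h1 : EZ (UU hS hfan x) (UU hS hfan y).M :=
      EZ_of_cones hS T.isPair.rig (UU_rigid hS hfan x) (UU_rigid hS hfan y)
        (fun i => ha (Sum.inl i)) (cone_convert (UU_cone hS hfan hx)) (fun i => hb (Sum.inl i))
        (fun j => hb (Sum.inr j)) (cone_convert (UU_cone hS hfan hy))
    have h2 : EZ (UU hS hfan y) (UU hS hfan x).M :=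
      EZ_of_cones hS T.isPair.rig (UU_rigid hS hfan y) (UU_rigid hS hfan x)
        (fun i => hb (Sum.inl i)) (cone_convert (UU_cone hS hfan hy)) (fun i => ha (Sum.inl i))
        (fun j => ha (Sum.inr j)) (cone_convert (UU_cone hS hfan hx))
    show ed k (UU hS hfan x) (UU hS hfan y).M + ed k (UU hS hfan y) (UU hS hfan x).M = 0
    rw [(ed_eq_zero_iff (k := k) _).2 h1, (ed_eq_zero_iff (k := k) _).2 h2]
  merge := by
    rintro x y hxy _ ⟨T, rfl⟩ a hx _ ⟨T', rfl⟩ b hy
    have h0 : ed k (UU hS hfan x) (UU hS hfan y).M + ed k (UU hS hfan y) (UU hS hfan x).M = 0 := hxy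
    have h1 : EZ (UU hS hfan x) (UU hS hfan y).M := (ed_eq_zero_iff (k := k) _).1 (by omega)
    have h2 : EZ (UU hS hfan y) (UU hS hfan x).M := (ed_eq_zero_iff (k := k) _).1 (by omega)
    obtain ⟨T'', g1, g2⟩ := merge_gen hS (T := T) (T' := T')
      (c := fun s => (a (Gv T.X T.Q S s) : ℝ)) (c' := fun s => (b (Gv T'.X T'.Q S s) : ℝ))
      (fun s => by exact_mod_cast hx.1 _) (fun s => by exact_mod_cast hy.1 _)
      (UU_cone hS hfan hx) (UU_cone hS hfan hy) h1 h2
    refine ⟨rays T'' S, ⟨T'', rfl⟩, fun u hu => ?_, fun u hu => ?_⟩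
    · obtain ⟨s, rfl⟩ := mem_rays.1 (hx.2.1 hu)
      exact g1 s (by exact_mod_cast Finsupp.mem_support_iff.1 hu)
    · obtain ⟨s, rfl⟩ := mem_rays.1 (hy.2.1 hu)
      exact g2 s (by exact_mod_cast Finsupp.mem_support_iff.1 hu)

end

end Pool.Agent.Helper52.DW
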