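import Mathlib

/-!
# Abstract fans with a compatibility degree (MP_7dd0aa_al, weights)

A set of simplicial unimodular cones in `ℤⁿ` covering all integral vectors, with a compatibility degree `mu` of two integral
vectors which behaves like the dimension of `E(x, y) ⊕ E(y, x)` for rigid two-term complexes.
-/

set_option autoImplicit false

namespace Pool.Agent.Helper52.DW

open Finset

/-- integral vectors -/
abbrev V (n : ℕ) : Type := Fin n → ℤ

/-- the total of a formal combination -/
noncomputable def tot {n : ℕ} : (V n →₀ ℤ) →ₗ[ℤ] V n := Finsupp.linearCombination ℤ id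

/-- the weight of a formal combination -/
noncomputable def W {n : ℕ} (f : V n → ℝ) : (V n →₀ ℤ) →ₗ[ℤ] ℝ := Finsupp.linearCombination ℤ f

/-- `a` is a nonnegative combination of elements of `T` with total `x` -/
def Rep {n : ℕ} (T : Finset (V n)) (a : V n →₀ ℤ) (x : V n) : Prop :=
  (∀ u, 0 ≤ a u) ∧ a.support ⊆ T ∧ tot a = x

/-- an abstract fan with a compatibility degree -/
structure Fan (n : ℕ) where
  cones : Set (Finset (V n))
  mu : V n → V n → ℕ
  int : ∀ T ∈ cones, ∀ (a : V n → ℚ) (x : V n), (∀ i, (x i : ℚ) = ∑ u ∈ T, a u * (u i : ℚ)) →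
    ∀ u ∈ T, ∃ z : ℤ, a u = z
  li : ∀ T ∈ cones, ∀ (a : V n → ℚ), (∀ i, (0 : ℚ) = ∑ u ∈ T, a u * (u i : ℚ)) → ∀ u ∈ T, a u = 0
  symm : ∀ x y, mu x y = mu y x
  self : ∀ x, mu x x = 0
  sub : ∀ r x y, mu r (x + y) ≤ mu r x + mu r y
  dec : ∀ x y, 0 < mu x y → mu x (x + y) < mu x y
  cover : ∀ x, ∃ T ∈ cones, ∃ a, Rep T a x
  compat : ∀ T ∈ cones, ∀ a b x y, Rep T a x → Rep T b y → mu x y = 0
  merge : ∀ x y, mu x y = 0 → ∀ T ∈ cones, ∀ a, Rep T a x → ∀ T' ∈ cones, ∀ b, Rep T' b y →
    ∃ T'' ∈ cones, a.support ⊆ T'' ∧ b.support ⊆ T''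

namespace Fan

variable {n : ℕ} (F : Fan n)

theorem tot_eq (a : V n →₀ ℤ) {T : Finset (V n)} (h : a.support ⊆ T) : tot a = ∑ u ∈ T, a u • u := by
  unfold tot
  rw [Finsupp.linearCombination_apply, Finsupp.sum_of_support_subset a h]
  · rfl
  · intro i _
    exact zero_smul _ _

theorem li' {T : Finset (V n)} (hT : T ∈ F.cones) {a : V n →₀ ℤ} (ha : a.support ⊆ T) (h : tot a = 0) : a = 0 := by
  rw [tot_eq a ha] at h
  have h1 := F.li T hT (fun u => (a u : ℚ)) (fun i => by
    have h2 := congrFun h i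
    rw [Finset.sum_apply] at h2
    have h3 : ((∑ u ∈ T, (a u • u) i : ℤ) : ℚ) = 0 := by
      rw [h2]
      rfl
    rw [← h3]
    push_cast
    exact sum_congr rfl fun u _ => by simp)
  ext u
  by_cases hu : u ∈ T
  · exact_mod_cast h1 u hu
  · by_contra hne
    exact hu (ha (Finsupp.mem_support_iff.2 hne))

/-- uniqueness of decompositions -/
theorem uniq {T T' : Finset (V n)} (hT : T ∈ F.cones) (hT' : T' ∈ F.cones) {a b : V n →₀ ℤ} {x : V n}
    (ha : Rep T a x) (hb : Rep T' b x) : a = b := by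
  obtain ⟨T'', hT'', h1, h2⟩ := F.merge x x (F.self x) T hT a ha T' hT' b hb
  have h3 : (a - b).support ⊆ T'' := by
    classical
    exact (Finsupp.support_sub).trans (union_subset h1 h2)
  have h4 := F.li' hT'' h3 (by rw [map_sub, ha.2.2, hb.2.2, sub_self])
  exact sub_eq_zero.1 h4

/-- the decomposition of a vector -/
noncomputable def dc (x : V n) : V n →₀ ℤ := (F.cover x).choose_spec.2.choose

/-- a cone containing the vector -/
noncomputable def cn (x : V n) : Finset (V n) := (F.cover x).choose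

theorem cn_mem (x : V n) : F.cn x ∈ F.cones := (F.cover x).choose_spec.1

theorem dc_rep (x : V n) : Rep (F.cn x) (F.dc x) x := (F.cover x).choose_spec.2.choose_spec

theorem dc_nonneg (x u : V n) : 0 ≤ F.dc x u := (F.dc_rep x).1 u

theorem dc_supp (x : V n) : (F.dc x).support ⊆ F.cn x := (F.dc_rep x).2.1

theorem dc_tot (x : V n) : tot (F.dc x) = x := (F.dc_rep x).2.2

theorem dc_eq {T : Finset (V n)} (hT : T ∈ F.cones) {a : V n →₀ ℤ} {x : V n} (h : Rep T a x) : F.dc x = a :=
  F.uniq (F.cn_mem x) hT (F.dc_rep x) h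

theorem rep_of {T : Finset (V n)} {x : V n} (h : (F.dc x).support ⊆ T) : Rep T (F.dc x) x :=
  ⟨F.dc_nonneg x, h, F.dc_tot x⟩

theorem common {x y : V n} (h : F.mu x y = 0) :
    ∃ T ∈ F.cones, (F.dc x).support ⊆ T ∧ (F.dc y).support ⊆ T :=
  F.merge x y h _ (F.cn_mem x) _ (F.dc_rep x) _ (F.cn_mem y) _ (F.dc_rep y)

theorem mu_zero {T : Finset (V n)} (hT : T ∈ F.cones) {x y : V n} (hx : (F.dc x).support ⊆ T)
    (hy : (F.dc y).support ⊆ T) : F.mu x y = 0 :=
  F.compat T hT _ _ x y (F.rep_of hx) (F.rep_of hy)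

theorem rep_add {T : Finset (V n)} {a b : V n →₀ ℤ} {x y : V n} (ha : Rep T a x) (hb : Rep T b y) :
    Rep T (a + b) (x + y) := by
  classical
  refine ⟨fun u => ?_, (Finsupp.support_add).trans (union_subset ha.2.1 hb.2.1), by rw [map_add, ha.2.2, hb.2.2]⟩
  rw [Finsupp.add_apply]
  exact add_nonneg (ha.1 u) (hb.1 u)

theorem dc_add {x y : V n} (h : F.mu x y = 0) : F.dc (x + y) = F.dc x + F.dc y := by
  obtain ⟨T, hT, h1, h2⟩ := F.common h
  exact F.dc_eq hT (rep_add (F.rep_of h1) (F.rep_of h2))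

theorem dc_zero : F.dc 0 = 0 := by
  refine F.dc_eq (F.cn_mem 0) ⟨fun u => le_rfl, ?_, map_zero _⟩
  rw [Finsupp.support_zero]
  exact empty_subset _

theorem dc_nsmul (m : ℕ) (x : V n) : F.dc (m • x) = m • F.dc x := by
  induction m with
  | zero => rw [zero_smul, zero_smul, F.dc_zero]
  | succ m ih =>
    have h1 : (F.dc (m • x)).support ⊆ F.cn x := by
      rw [ih]
      exact (Finsupp.support_smul).trans (F.dc_supp x)
    have h2 : F.mu (m • x) x = 0 := F.mu_zero (F.cn_mem x) h1 (F.dc_supp x)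
    rw [succ_nsmul, succ_nsmul, F.dc_add h2, ih]

/-- for a generator -/
theorem dc_gen {T : Finset (V n)} (hT : T ∈ F.cones) {u : V n} (hu : u ∈ T) : F.dc u = Finsupp.single u 1 := by
  classical
  refine F.dc_eq hT ⟨fun v => ?_, ?_, ?_⟩
  · rw [Finsupp.single_apply]
    split_ifs <;> norm_num
  · exact (Finsupp.support_single_subset).trans (singleton_subset_iff.2 hu)
  · unfold tot
    rw [Finsupp.linearCombination_single]
    simp

theorem mu_nsmul_add (r e : V n) (N : ℕ) : F.mu r (N • r + e) ≤ F.mu r e - N := by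
  induction N with
  | zero => simp
  | succ N ih =>
    have e1 : (N + 1) • r + e = r + (N • r + e) := by
      rw [succ_nsmul]
      abel
    rw [e1]
    rcases Nat.eq_zero_or_pos (F.mu r (N • r + e)) with h | h
    · have h1 := F.sub r r (N • r + e)
      rw [F.self, h] at h1
      omega
    · have h1 := F.dec r (N • r + e) h
      omega

theorem mu_near {r e : V n} {N : ℕ} (h : F.mu r e ≤ N) : F.mu (N • r + e) r = 0 := by
  have h1 := F.mu_nsmul_add r e N
  rw [F.symm]
  omega

theorem dc_succ {r e : V n} {N : ℕ} (h : F.mu r e ≤ N) :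
    F.dc ((N + 1) • r + e) = F.dc (N • r + e) + F.dc r := by
  have e1 : (N + 1) • r + e = (N • r + e) + r := by
    rw [succ_nsmul]
    abel
  rw [e1]
  exact F.dc_add (F.mu_near h)

/-- the decomposition of `x` contains all of `σ` -/
def Star (σ : Finset (V n)) (x : V n) : Prop := ∀ u ∈ σ, 1 ≤ F.dc x u

theorem star_near (r e : V n) {N : ℕ} (h : F.mu r e < N) : F.Star (F.dc r).support (N • r + e) := by
  intro u hu
  obtain ⟨M, rfl⟩ : ∃ M, N = M + 1 := ⟨N - 1, by omega⟩
  rw [F.dc_succ (by omega), Finsupp.add_apply]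
  have h1 := F.dc_nonneg (M • r + e) u
  have h2 := F.dc_nonneg r u
  have h3 := Finsupp.mem_support_iff.1 hu
  omega

theorem star_subset {σ : Finset (V n)} {x : V n} (h : F.Star σ x) : σ ⊆ (F.dc x).support := by
  intro u hu
  rw [Finsupp.mem_support_iff]
  have := h u hu
  omega

/-- removing the generators in `σ` once -/
theorem star_sub {σ : Finset (V n)} {x : V n} (h : F.Star σ x) :
    F.dc (x - ∑ u ∈ σ, u) = F.dc x - ∑ u ∈ σ, Finsupp.single u 1 := by
  classical
  have h1 : ∀ v, (∑ u ∈ σ, Finsupp.single u (1 : ℤ)) v = if v ∈ σ then 1 else 0 := by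
    intro v
    rw [Finsupp.finsetSum_apply]
    simp only [Finsupp.single_apply]
    rw [sum_ite_eq' σ v]
  have h2 : (∑ u ∈ σ, Finsupp.single u (1 : ℤ)).support ⊆ F.cn x := by
    intro v hv
    rw [Finsupp.mem_support_iff, h1 v] at hv
    by_cases hvσ : v ∈ σ
    · exact F.dc_supp x (F.star_subset h hvσ)
    · simp [hvσ] at hv
  refine F.dc_eq (F.cn_mem x) ⟨fun v => ?_, (Finsupp.support_sub).trans (union_subset (F.dc_supp x) h2), ?_⟩
  · rw [Finsupp.sub_apply, h1 v]
    split_ifs with hv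
    · have := h v hv
      omega
    · have := F.dc_nonneg x v
      omega
  · rw [map_sub, F.dc_tot, map_sum]
    congr 1
    refine sum_congr rfl fun u _ => ?_
    unfold tot
    rw [Finsupp.linearCombination_single]
    simp

theorem star_add {σ : Finset (V n)} {x y : V n} (hx : F.Star σ x) (hy : F.Star σ y) : F.Star σ (x + y) := by
  classical
  set r : V n := ∑ u ∈ σ, u with hr
  set a : V n →₀ ℤ := ∑ u ∈ σ, Finsupp.single u 1 with ha
  have h1 : ∀ v, a v = if v ∈ σ then 1 else 0 := by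
    intro v
    rw [ha, Finsupp.finsetSum_apply]
    simp only [Finsupp.single_apply]
    rw [sum_ite_eq' σ v]
  have htot : tot a = r := by
    rw [ha, map_sum, hr]
    refine sum_congr rfl fun u _ => ?_
    unfold tot
    rw [Finsupp.linearCombination_single]
    simp
  have hsup : ∀ z, F.Star σ z → a.support ⊆ F.cn z := by
    intro z hz v hv
    rw [Finsupp.mem_support_iff, h1 v] at hv
    by_cases hvσ : v ∈ σ
    · exact F.dc_supp z (F.star_subset hz hvσ)
    · simp [hvσ] at hv
  have hrep : ∀ z, F.Star σ z → Rep (F.cn z) a r := by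
    intro z hz
    refine ⟨fun v => ?_, hsup z hz, htot⟩
    rw [h1 v]
    split_ifs <;> norm_num
  have hdr : F.dc r = a := F.dc_eq (F.cn_mem x) (hrep x hx)
  have hmu : ∀ z, F.Star σ z → F.mu r (z - r) = 0 := by
    intro z hz
    refine F.mu_zero (F.cn_mem z) ?_ ?_
    · rw [hdr]
      exact hsup z hz
    · rw [F.star_sub hz]
      exact (Finsupp.support_sub).trans (union_subset (F.dc_supp z) (hsup z hz))
  set w : V n := (x - r) + (y - r) with hw
  have h2 : F.mu w r = 0 := by
    have h3 : F.mu r w ≤ F.mu r (x - r) + F.mu r (y - r) := F.sub r (x - r) (y - r)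
    rw [hmu x hx, hmu y hy] at h3
    rw [F.symm]
    omega
  have h3 : F.mu (w + r) r = 0 := by
    have := F.sub r w r
    rw [F.self, F.symm r w, h2] at this
    rw [F.symm]
    omega
  have e1 : x + y = (w + r) + r := by
    rw [hw]
    abel
  intro u hu
  rw [e1, F.dc_add h3, F.dc_add h2, hdr, Finsupp.add_apply, Finsupp.add_apply, h1 u, if_pos hu]
  have := F.dc_nonneg w u
  omega

end Fan

end Pool.Agent.Helper52.DW
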