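import Pool.Agent.Helper52.DW.Fan

/-!
# Subadditivity of the weight on an abstract fan (MP_7dd0aa_al)
-/

set_option autoImplicit false
set_option linter.unusedSectionVars false

namespace Pool.Agent.Helper52.DW

open Finset

/-- the rational vector -/
def qv {n : ℕ} (x : V n) : Fin n → ℚ := fun i => (x i : ℚ)

theorem qv_add {n : ℕ} (x y : V n) : qv (x + y) = qv x + qv y := by
  ext i
  simp [qv]

theorem qv_zsmul {n : ℕ} (a : ℤ) (x : V n) : qv (a • x) = (a : ℚ) • qv x := by
  ext i
  simp [qv]

theorem qv_nsmul {n : ℕ} (a : ℕ) (x : V n) : qv (a • x) = (a : ℚ) • qv x := by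
  ext i
  simp [qv]

theorem qv_neg {n : ℕ} (x : V n) : qv (-x) = - qv x := by
  ext i
  simp [qv]

theorem qv_sum {n : ℕ} {ι : Type} (s : Finset ι) (g : ι → V n) : qv (∑ i ∈ s, g i) = ∑ i ∈ s, qv (g i) := by
  ext j
  simp [qv]

theorem qv_inj {n : ℕ} {x y : V n} (h : qv x = qv y) : x = y := by
  ext i
  have := congrFun h i
  simpa [qv] using this

/-- the rational span -/
def SS {n : ℕ} (σ : Finset (V n)) : Submodule ℚ (Fin n → ℚ) := Submodule.span ℚ (qv '' (σ : Set (V n)))

theorem mem_SS_iff {n : ℕ} {σ : Finset (V n)} {v : Fin n → ℚ} :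
    v ∈ SS σ ↔ ∃ a : V n → ℚ, v = ∑ u ∈ σ, a u • qv u := by
  unfold SS
  rw [Submodule.mem_span_image_finset_iff_exists_fun']
  constructor
  · rintro ⟨c, hc⟩
    exact ⟨c, hc.symm⟩
  · rintro ⟨c, hc⟩
    exact ⟨c, hc.symm⟩

theorem mem_SS_self {n : ℕ} {σ : Finset (V n)} {u : V n} (h : u ∈ σ) : qv u ∈ SS σ :=
  Submodule.subset_span ⟨u, h, rfl⟩

theorem SS_mono {n : ℕ} {σ τ : Finset (V n)} (h : σ ⊆ τ) : SS σ ≤ SS τ :=
  Submodule.span_mono (Set.image_mono h)

theorem qv_tot {n : ℕ} {a : V n →₀ ℤ} {T : Finset (V n)} (h : a.support ⊆ T) :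
    qv (tot a) = ∑ u ∈ T, (a u : ℚ) • qv u := by
  rw [Fan.tot_eq a h, qv_sum]
  exact sum_congr rfl fun u _ => qv_zsmul _ _

theorem tot_mem_SS {n : ℕ} {a : V n →₀ ℤ} {T : Finset (V n)} (h : a.support ⊆ T) : qv (tot a) ∈ SS T := by
  rw [mem_SS_iff]
  exact ⟨fun u => (a u : ℚ), qv_tot h⟩

namespace Fan

variable {n : ℕ} (F : Fan n)

theorem li_q {T : Finset (V n)} (hT : T ∈ F.cones) {a : V n → ℚ} (h : ∑ u ∈ T, a u • qv u = 0) :
    ∀ u ∈ T, a u = 0 := by
  refine F.li T hT a fun i => ?_
  have h1 := congrFun h i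
  rw [Finset.sum_apply] at h1
  rw [Pi.zero_apply] at h1
  rw [← h1]
  rfl

theorem li_q2 {T : Finset (V n)} (hT : T ∈ F.cones) {a b : V n → ℚ}
    (h : ∑ u ∈ T, a u • qv u = ∑ u ∈ T, b u • qv u) : ∀ u ∈ T, a u = b u := by
  intro u hu
  have := F.li_q hT (a := fun u => a u - b u) (by
    rw [← sub_eq_zero] at h
    rw [← h, ← sum_sub_distrib]
    exact sum_congr rfl fun u _ => sub_smul _ _ _) u hu
  exact sub_eq_zero.1 this

theorem linInd {T : Finset (V n)} (hT : T ∈ F.cones) : LinearIndependent ℚ (fun u : T => qv (u : V n)) := by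
  classical
  rw [Fintype.linearIndependent_iff]
  intro g hg u
  have h1 : ∑ u ∈ T, (if h : u ∈ T then g ⟨u, h⟩ else 0) • qv u = 0 := by
    rw [← hg, ← Finset.sum_coe_sort T]
    exact sum_congr rfl fun u _ => by simp
  have h2 := F.li_q hT h1 u u.2
  simpa using h2

theorem card_le {T : Finset (V n)} (hT : T ∈ F.cones) : T.card ≤ n := by
  have h := (F.linInd hT).fintype_card_le_finrank
  rw [Module.finrank_fintype_fun_eq_card, Fintype.card_fin, Fintype.card_coe] at h
  exact h

/-- integral coordinates with respect to a full cone -/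
theorem basis {T : Finset (V n)} (hT : T ∈ F.cones) (hc : T.card = n) (x : V n) :
    ∃ a : V n →₀ ℤ, a.support ⊆ T ∧ tot a = x := by
  classical
  have h1 : Submodule.span ℚ (Set.range fun u : T => qv (u : V n)) = ⊤ := by
    refine (F.linInd hT).span_eq_top_of_card_eq_finrank' ?_
    rw [Module.finrank_fintype_fun_eq_card, Fintype.card_fin, Fintype.card_coe, hc]
  have h2 : qv x ∈ SS T := by
    have h3 : Submodule.span ℚ (Set.range fun u : T => qv (u : V n)) = SS T := by
      unfold SS
      congr 1
      ext v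
      simp
    rw [← h3, h1]
    trivial
  obtain ⟨q, hq⟩ := mem_SS_iff.1 h2
  have h4 := F.int T hT q x (fun i => by
    have h5 := congrFun hq i
    rw [Finset.sum_apply] at h5
    exact h5)
  choose! z hz using h4
  refine ⟨Finsupp.onFinset T (fun u => if u ∈ T then z u else 0) (fun u hu => ?_), ?_, ?_⟩
  · by_contra h
    exact hu (if_neg h)
  · exact Finsupp.support_onFinset_subset
  · refine qv_inj ?_
    rw [qv_tot (Finsupp.support_onFinset_subset), hq]
    refine sum_congr rfl fun u hu => ?_
    rw [Finsupp.onFinset_apply, if_pos hu, hz u hu]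

theorem supp_of_mem {T : Finset (V n)} (hT : T ∈ F.cones) {a : V n →₀ ℤ} (ha : a.support ⊆ T)
    {σ : Finset (V n)} (hσ : σ ⊆ T) (h : qv (tot a) ∈ SS σ) : a.support ⊆ σ := by
  classical
  obtain ⟨q, hq⟩ := mem_SS_iff.1 h
  have h1 : ∑ u ∈ T, (a u : ℚ) • qv u = ∑ u ∈ T, (if u ∈ σ then q u else 0) • qv u := by
    rw [← qv_tot ha, hq]
    rw [← sum_subset hσ (f := fun u => (if u ∈ σ then q u else 0) • qv u)]
    · exact sum_congr rfl fun u hu => by rw [if_pos hu]
    · intro u _ hu
      rw [if_neg hu, zero_smul]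
  intro u hu
  have h2 := F.li_q2 hT h1 u (ha hu)
  by_contra hne
  rw [if_neg hne] at h2
  rw [Finsupp.mem_support_iff] at hu
  exact hu (by exact_mod_cast h2)

theorem supp_dc {σ : Finset (V n)} {x : V n} (hx : F.Star σ x) (h : qv x ∈ SS σ) : (F.dc x).support ⊆ σ := by
  refine F.supp_of_mem (F.cn_mem x) (F.dc_supp x) ((F.star_subset hx).trans (F.dc_supp x)) ?_
  rw [F.dc_tot]
  exact h

/-- independence of two vectors modulo the span of `σ` -/
def Ind (σ : Finset (V n)) (x y : V n) : Prop :=
  ∀ a b : ℚ, a • qv x + b • qv y ∈ SS σ → a = 0 ∧ b = 0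

theorem mu_near' {r e : V n} {N : ℕ} (h : F.mu r e < N) : F.Star (F.dc r).support (N • r + e) := F.star_near r e h

variable (f : V n → ℝ)

/-- the weight of a vector -/
noncomputable def cc (x : V n) : ℝ := W f (F.dc x)

theorem cc_add {x y : V n} (h : F.mu x y = 0) : F.cc f (x + y) = F.cc f x + F.cc f y := by
  unfold cc
  rw [F.dc_add h, map_add]

theorem cc_nsmul (m : ℕ) (x : V n) : F.cc f (m • x) = m * F.cc f x := by
  unfold cc
  rw [F.dc_nsmul, map_nsmul, nsmul_eq_mul]

theorem cc_near {r e : V n} {N : ℕ} (h : F.mu r e ≤ N) (j : ℕ) :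
    F.cc f ((N + j) • r + e) = F.cc f (N • r + e) + j * F.cc f r := by
  induction j with
  | zero => simp
  | succ j ih =>
    have h1 : F.cc f ((N + j + 1) • r + e) = F.cc f ((N + j) • r + e) + F.cc f r := by
      unfold cc
      rw [F.dc_succ (by omega), map_add]
    rw [← add_assoc, h1, ih]
    push_cast
    ring

theorem star_nsmul_add {σ : Finset (V n)} {x y : V n} (hx : F.Star σ x) (hy : F.Star σ y) (j : ℕ) :
    F.Star σ (j • x + y) := by
  induction j with
  | zero => simpa using hy
  | succ j ih =>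
    have e1 : (j + 1) • x + y = x + (j • x + y) := by
      rw [succ_nsmul]; abel
    rw [e1]
    exact F.star_add hx ih

/-- the case of two vectors independent modulo the span of `σ` -/
theorem claimA (σ : Finset (V n))
    (IH : ∀ σ' : Finset (V n), σ.card < σ'.card → ∀ x y, F.Star σ' x → F.Star σ' y →
      F.cc f (x + y) ≤ F.cc f x + F.cc f y) :
    ∀ m : ℕ, ∀ x y, F.mu x y ≤ m → F.Star σ x → F.Star σ y → Ind σ x y →
      F.cc f (x + y) ≤ F.cc f x + F.cc f y := by
  intro m
  induction m with
  | zero =>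
    intro x y hm _ _ _
    exact (F.cc_add f (by omega)).le
  | succ m ihm =>
    intro x y hm hx hy hxy
    by_cases h0 : F.mu x y = 0
    · exact (F.cc_add f h0).le
    -- the general inequality for the multiples
    have key : ∀ x y : V n, F.mu x y ≤ m + 1 → 0 < F.mu x y → F.Star σ x → F.Star σ y → Ind σ x y →
        ∀ j : ℕ, F.cc f (j • (x + y) + x) ≤ F.cc f x + j * F.cc f (x + y) := by
      intro x y hm h0 hx hy hxy j
      induction j with
      | zero => simp
      | succ j ih =>
        have e1 : (j + 1) • (x + y) + x = (x + y) + (j • (x + y) + x) := by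
          rw [succ_nsmul]; abel
        have h1 : F.mu (x + y) (j • (x + y) + x) ≤ m := by
          have h2 := F.mu_nsmul_add (x + y) x j
          have h3 := F.dec x y h0
          rw [F.symm x (x + y)] at h3
          omega
        have h4 : Ind σ (x + y) (j • (x + y) + x) := by
          intro a b hab
          have h5 : (a + b * j + b) • qv x + (a + b * j) • qv y ∈ SS σ := by
            simp only [qv_add, qv_nsmul] at hab
            convert hab using 1
            module
          obtain ⟨h6, h7⟩ := hxy _ _ h5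
          have h8 : b = 0 := by linarith
          rw [h8] at h7
          exact ⟨by linarith, h8⟩
        have h9 := ihm (x + y) (j • (x + y) + x) h1 (F.star_add hx hy)
          (F.star_nsmul_add (F.star_add hx hy) hx j) h4
        rw [e1]
        push_cast
        linarith
    set z : V n := x + y with hz
    have hzS : F.Star σ z := F.star_add hx hy
    have hcard : σ.card < (F.dc z).support.card := by
      refine card_lt_card ((F.star_subset hzS).ssubset_of_ne ?_)
      intro heq
      have h1 : qv z ∈ SS σ := by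
        rw [← F.dc_tot z]
        exact tot_mem_SS heq.symm.subset
      have h2 := (hxy 1 1 (by rw [one_smul, one_smul, ← qv_add]; exact h1)).1
      exact one_ne_zero h2
    set N : ℕ := max (F.mu z x) (F.mu z y) + 1 with hN
    have s1 : F.Star (F.dc z).support (N • z + x) := F.star_near z x (by omega)
    have s2 : F.Star (F.dc z).support (N • z + y) := F.star_near z y (by omega)
    have h1 := IH _ hcard _ _ s1 s2
    have e1 : (N • z + x) + (N • z + y) = (2 * N + 1) • z := by
      rw [hz]; module
    rw [e1, F.cc_nsmul] at h1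
    have h2 := key x y hm (Nat.pos_of_ne_zero h0) hx hy hxy N
    have hyx : Ind σ y x := fun a b hab => by
      have := hxy b a (by rw [add_comm]; exact hab)
      exact ⟨this.2, this.1⟩
    have h3 := key y x (by rw [F.symm]; exact hm) (by rw [F.symm]; exact Nat.pos_of_ne_zero h0) hy hx hyx N
    rw [add_comm y x] at h3
    push_cast at h1
    rw [← hz] at h2 h3
    linarith

/-- a standard basis vector outside a span of small dimension -/
theorem exists_out (τ : Finset (V n)) (h : τ.card < n) : ∃ e : V n, qv e ∉ SS τ := by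
  classical
  by_contra hcon
  push Not at hcon
  have htop : SS τ = ⊤ := by
    rw [eq_top_iff]
    intro v _
    have h1 : v = ∑ i, v i • qv (Pi.single i (1 : ℤ)) := by
      ext j
      rw [Finset.sum_apply, Finset.sum_eq_single j]
      · simp [qv]
      · intro i _ hij
        simp [qv, Pi.single_eq_of_ne (Ne.symm hij)]
      · simp
    rw [h1]
    exact Submodule.sum_mem _ fun i _ => Submodule.smul_mem _ _ (hcon _)
  have h2 : Module.finrank ℚ (SS τ) ≤ τ.card := by
    unfold SS
    rw [← Finset.coe_image]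
    exact (finrank_span_finset_le_card _).trans card_image_le
  rw [htop, finrank_top, Module.finrank_fintype_fun_eq_card, Fintype.card_fin] at h2
  omega

/-- the case of codimension at least two -/
theorem claimB (σ : Finset (V n)) (hσ : σ.card + 2 ≤ n)
    (IH : ∀ σ' : Finset (V n), σ.card < σ'.card → ∀ x y, F.Star σ' x → F.Star σ' y →
      F.cc f (x + y) ≤ F.cc f x + F.cc f y) (x y : V n) (hx : F.Star σ x) (hy : F.Star σ y) :
    F.cc f (x + y) ≤ F.cc f x + F.cc f y := by
  classical
  have hA : ∀ x y, F.Star σ x → F.Star σ y → Ind σ x y → F.cc f (x + y) ≤ F.cc f x + F.cc f y :=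
    fun x y => F.claimA f σ IH (F.mu x y) x y le_rfl
  by_cases hxS : qv x ∈ SS σ
  · have h1 := F.supp_dc hx hxS
    have h2 : F.mu x y = 0 :=
      F.mu_zero (F.cn_mem y) (h1.trans ((F.star_subset hy).trans (F.dc_supp y))) (F.dc_supp y)
    exact (F.cc_add f h2).le
  by_cases hyS : qv y ∈ SS σ
  · have h1 := F.supp_dc hy hyS
    have h2 : F.mu x y = 0 :=
      F.mu_zero (F.cn_mem x) (F.dc_supp x) (h1.trans ((F.star_subset hx).trans (F.dc_supp x)))
    exact (F.cc_add f h2).le
  by_cases hind : Ind σ x y
  · exact hA x y hx hy hind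
  -- now `y` is a multiple of `x` modulo the span
  obtain ⟨lam, hlam0, hlam⟩ : ∃ lam : ℚ, lam ≠ 0 ∧ qv y - lam • qv x ∈ SS σ := by
    unfold Ind at hind
    push Not at hind
    obtain ⟨a, b, hab, hne⟩ := hind
    have hb : b ≠ 0 := by
      intro hb
      by_cases ha : a = 0
      · exact hne ha hb
      · apply hxS
        rw [hb, zero_smul, add_zero] at hab
        have := Submodule.smul_mem _ a⁻¹ hab
        rwa [smul_smul, inv_mul_cancel₀ ha, one_smul] at this
    have ha : a ≠ 0 := by
      intro ha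
      apply hyS
      rw [ha, zero_smul, zero_add] at hab
      have := Submodule.smul_mem _ b⁻¹ hab
      rwa [smul_smul, inv_mul_cancel₀ hb, one_smul] at this
    refine ⟨-a / b, div_ne_zero (neg_ne_zero.2 ha) hb, ?_⟩
    have := Submodule.smul_mem _ b⁻¹ hab
    convert this using 1
    rw [smul_add, smul_smul, smul_smul, inv_mul_cancel₀ hb, one_smul, sub_eq_add_neg, add_comm,
      ← neg_smul]
    congr 2
    field_simp
  obtain ⟨h, hh⟩ := exists_out (insert x σ) (by
    have := card_insert_le x σ
    omega)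
  have hxi : qv x ∈ SS (insert x σ) := mem_SS_self (mem_insert_self _ _)
  have hsi : SS σ ≤ SS (insert x σ) := SS_mono (subset_insert _ _)
  have hyi : qv y ∈ SS (insert x σ) := by
    have h1 : qv y = (qv y - lam • qv x) + lam • qv x := by abel
    rw [h1]
    exact Submodule.add_mem _ (hsi hlam) (Submodule.smul_mem _ _ hxi)
  -- the vector `g`
  set r : V n := ∑ u ∈ σ, u with hr
  have hface : ∃ T ∈ F.cones, σ ⊆ T := ⟨_, F.cn_mem x, (F.star_subset hx).trans (F.dc_supp x)⟩
  obtain ⟨T, hT, hσT⟩ := hface
  have hdr : (F.dc r).support = σ := by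
    have h1 : ∀ v, (∑ u ∈ σ, Finsupp.single u (1 : ℤ)) v = if v ∈ σ then 1 else 0 := by
      intro v
      rw [Finsupp.finsetSum_apply]
      simp only [Finsupp.single_apply]
      rw [sum_ite_eq' σ v]
    have h2 : (∑ u ∈ σ, Finsupp.single u (1 : ℤ)).support = σ := by
      ext v
      rw [Finsupp.mem_support_iff, h1 v]
      by_cases hv : v ∈ σ <;> simp [hv]
    have h3 : F.dc r = ∑ u ∈ σ, Finsupp.single u (1 : ℤ) := by
      refine F.dc_eq hT ⟨fun v => ?_, ?_, ?_⟩
      · rw [h1 v]
        split_ifs <;> norm_num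
      · rw [h2]; exact hσT
      · rw [map_sum, hr]
        refine sum_congr rfl fun u _ => ?_
        unfold tot
        rw [Finsupp.linearCombination_single]
        simp
    rw [h3, h2]
  have hrS : qv r ∈ SS σ := by
    rw [hr, qv_sum]
    exact Submodule.sum_mem _ fun u hu => mem_SS_self hu
  set g : V n := (F.mu r h + 1) • r + h with hg
  have hgS : F.Star σ g := by
    have := F.star_near r h (N := F.mu r h + 1) (by omega)
    rwa [hdr] at this
  have hgo : qv g ∉ SS (insert x σ) := by
    intro hmem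
    apply hh
    have h1 : qv h = qv g - ((F.mu r h + 1 : ℕ) : ℚ) • qv r := by
      rw [hg, qv_add, qv_nsmul]; abel
    rw [h1]
    exact Submodule.sub_mem _ hmem (Submodule.smul_mem _ _ (hsi hrS))
  clear_value g
  -- a multiple of `g` plus an element of the small span is in the span only if the multiple is zero
  have hgz : ∀ (c : ℚ) (w : Fin n → ℚ), w ∈ SS (insert x σ) → c • qv g + w ∈ SS (insert x σ) → c = 0 := by
    intro c w hw hcw
    by_contra hc
    apply hgo
    have h1 : c • qv g ∈ SS (insert x σ) := by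
      have h2 := Submodule.sub_mem _ hcw hw
      rwa [add_sub_cancel_right] at h2
    have h3 := Submodule.smul_mem _ c⁻¹ h1
    rwa [smul_smul, inv_mul_cancel₀ hc, one_smul] at h3
  -- adding multiples of `p` to `g`
  have hgrow : ∀ p : V n, F.Star σ p → qv p ∉ SS σ → qv p ∈ SS (insert x σ) → ∀ j : ℕ,
      F.cc f (j • p + g) ≤ j * F.cc f p + F.cc f g := by
    intro p hp hpS hpi j
    induction j with
    | zero => simp
    | succ j ih =>
      have e1 : (j + 1) • p + g = p + (j • p + g) := by
        rw [succ_nsmul]; abel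
      have h1 : Ind σ p (j • p + g) := by
        intro a b hab
        rw [qv_add, qv_nsmul] at hab
        have h2 : b • qv g + (a + b * j) • qv p ∈ SS (insert x σ) := by
          have := hsi hab
          convert this using 1
          module
        have hb := hgz b _ (Submodule.smul_mem _ _ hpi) h2
        refine ⟨?_, hb⟩
        rw [hb, zero_smul, add_zero] at hab
        by_contra ha
        apply hpS
        have h3 := Submodule.smul_mem _ a⁻¹ hab
        rwa [smul_smul, inv_mul_cancel₀ ha, one_smul] at h3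
      have h2 := hA p (j • p + g) hp (F.star_nsmul_add hp hgS j) h1
      rw [e1]
      push_cast
      linarith
  have gx := hgrow x hx hxS hxi
  have gy := hgrow y hy hyS hyi
  -- independence of the two sums
  have hindM : ∀ N M : ℕ, (M : ℚ) * lam ≠ N → Ind σ (N • x + g) (M • y + g) := by
    intro N M hNM a b hab
    rw [qv_add, qv_add, qv_nsmul, qv_nsmul] at hab
    have h1 : (a + b) • qv g + ((a * N) • qv x + (b * M) • qv y) ∈ SS σ := by
      convert hab using 1
      module
    have h2 := hgz (a + b) _ (Submodule.add_mem _ (Submodule.smul_mem _ _ hxi)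
      (Submodule.smul_mem _ _ hyi)) (hsi h1)
    rw [h2, zero_smul, zero_add] at h1
    have h3 : (a * N + b * M * lam) • qv x ∈ SS σ := by
      have h4 := Submodule.sub_mem _ h1 (Submodule.smul_mem _ (b * M) hlam)
      convert h4 using 1
      module
    have h5 : a * N + b * M * lam = 0 := by
      by_contra hc
      apply hxS
      have h6 := Submodule.smul_mem _ (a * N + b * M * lam)⁻¹ h3
      rwa [smul_smul, inv_mul_cancel₀ hc, one_smul] at h6
    have hb : b = -a := by linarith
    rw [hb] at h5
    have h7 : a * (N - M * lam) = 0 := by linarith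
    rcases mul_eq_zero.1 h7 with h8 | h8
    · exact ⟨h8, by rw [hb, h8, neg_zero]⟩
    · exact absurd (by linarith) hNM
  -- choose the shift
  obtain ⟨d, hd⟩ : ∃ d : ℕ, ∀ N : ℕ, 1 ≤ N → ((N + d : ℕ) : ℚ) * lam ≠ N := by
    by_cases h1 : lam = 1
    · refine ⟨1, fun N _ => ?_⟩
      rw [h1]
      push_cast
      intro h2
      linarith
    · refine ⟨0, fun N hN h2 => h1 ?_⟩
      rw [add_zero] at h2
      have h3 : (N : ℚ) ≠ 0 := by
        have : N ≠ 0 := by omega
        exact_mod_cast this
      have h4 : (N : ℚ) * (lam - 1) = 0 := by linarith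
      rcases mul_eq_zero.1 h4 with h5 | h5
      · exact absurd h5 h3
      · linarith
  set z : V n := x + y with hz
  set e : V n := d • y + (2 : ℕ) • g with he
  set N₀ : ℕ := F.mu z e + 1 with hN₀
  have hmain : ∀ j : ℕ, F.cc f (N₀ • z + e) + j * F.cc f z
      ≤ (N₀ + j) * F.cc f x + (N₀ + j + d) * F.cc f y + 2 * F.cc f g := by
    intro j
    rw [← F.cc_near f (by omega) j]
    have h1 := hA ((N₀ + j) • x + g) ((N₀ + j + d) • y + g)
      (F.star_nsmul_add hx hgS _) (F.star_nsmul_add hy hgS _)
      (hindM _ _ (hd _ (by omega)))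
    have e1 : ((N₀ + j) • x + g) + ((N₀ + j + d) • y + g) = (N₀ + j) • z + e := by
      rw [hz, he]; module
    rw [e1] at h1
    have h2 := gx (N₀ + j)
    have h3 := gy (N₀ + j + d)
    push_cast at h2 h3
    linarith
  by_contra hcon
  push Not at hcon
  set dl : ℝ := F.cc f z - (F.cc f x + F.cc f y) with hdl
  have hpos : 0 < dl := by rw [hdl]; linarith
  obtain ⟨j, hj⟩ := exists_nat_gt ((N₀ * F.cc f x + (N₀ + d) * F.cc f y + 2 * F.cc f g
    - F.cc f (N₀ • z + e)) / dl)
  rw [div_lt_iff₀ hpos] at hj
  have h1 := hmain j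
  have h2 : (j : ℝ) * dl = j * F.cc f z - j * F.cc f x - j * F.cc f y := by
    rw [hdl]; ring
  have h3 : ((N₀ : ℝ) + j) * F.cc f x = N₀ * F.cc f x + j * F.cc f x := by ring
  have h4 : ((N₀ : ℝ) + j + d) * F.cc f y = (N₀ + d) * F.cc f y + j * F.cc f y := by ring
  rw [h3, h4] at h1
  linarith

end Fan

end Pool.Agent.Helper52.DW
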