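import Pool.Agent.Helper52.DW.Sub

/-!
# Subadditivity of the weight on an abstract fan (MP_7dd0aa_al), codimension one and the conclusion
-/

set_option autoImplicit false
set_option linter.unusedSectionVars false

namespace Pool.Agent.Helper52.DW

open Finset

namespace Fan

variable {n : ℕ} (F : Fan n)

/-- the exchange inequality -/
def Exch (f : V n → ℝ) : Prop :=
  ∀ T ∈ F.cones, ∀ T' ∈ F.cones, T.card = n → T'.card = n → ∀ w ∈ T, ∀ w' ∈ T', w ≠ w' →
    T.erase w = T'.erase w' → ∀ a : V n →₀ ℤ, a.support ⊆ T.erase w → tot a = w + w' →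
    W f a ≤ f w + f w'

theorem not_mem_SS {σ : Finset (V n)} {w : V n} (hw : w ∉ σ) (hT : insert w σ ∈ F.cones) :
    qv w ∉ SS σ := by
  classical
  intro h
  have h1 : (Finsupp.single w (1 : ℤ)).support ⊆ insert w σ :=
    (Finsupp.support_single_subset).trans (singleton_subset_iff.2 (mem_insert_self _ _))
  have h2 : tot (Finsupp.single w (1 : ℤ)) = w := by
    unfold tot
    rw [Finsupp.linearCombination_single]
    simp
  have h3 := F.supp_of_mem hT h1 (subset_insert w σ) (by rw [h2]; exact h)
  have h4 : w ∈ (Finsupp.single w (1 : ℤ)).support := by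
    rw [Finsupp.mem_support_iff, Finsupp.single_eq_same]
    norm_num
  exact hw (h3 h4)

theorem smul_eq_zero' {σ : Finset (V n)} {w : V n} (hw : w ∉ σ) (hT : insert w σ ∈ F.cones) {c : ℚ}
    (h : c • qv w ∈ SS σ) : c = 0 := by
  by_contra hc
  apply F.not_mem_SS hw hT
  have h3 := Submodule.smul_mem _ c⁻¹ h
  rwa [smul_smul, inv_mul_cancel₀ hc, one_smul] at h3

theorem tot_single (w : V n) (c : ℤ) : tot (Finsupp.single w c) = c • w := by
  unfold tot
  rw [Finsupp.linearCombination_single]
  simp

theorem W_single (f : V n → ℝ) (w : V n) (c : ℤ) : W f (Finsupp.single w c) = c * f w := by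
  unfold W
  rw [Finsupp.linearCombination_single, zsmul_eq_mul]

/-- splitting off a coefficient -/
theorem tot_mod {σ : Finset (V n)} {w : V n} {b : V n →₀ ℤ} (hb : b.support ⊆ insert w σ) :
    qv (tot b) - (b w : ℚ) • qv w ∈ SS σ := by
  classical
  have h1 : (b - Finsupp.single w (b w)).support ⊆ σ := by
    intro u hu
    rw [Finsupp.mem_support_iff, Finsupp.sub_apply, Finsupp.single_apply] at hu
    by_cases h : w = u
    · subst h
      simp at hu
    · rw [if_neg h, sub_zero] at hu
      rcases mem_insert.1 (hb (Finsupp.mem_support_iff.2 hu)) with h2 | h2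
      · exact absurd h2.symm h
      · exact h2
  have h2 := tot_mem_SS h1
  rw [map_sub, tot_single, sub_eq_add_neg, qv_add, qv_neg, qv_zsmul, ← sub_eq_add_neg] at h2
  exact h2

/-- two different full cones on a common wall are on opposite sides -/
theorem opp {σ : Finset (V n)} (hc : σ.card + 1 = n) {w w' : V n} (hw : w ∉ σ) (hw' : w' ∉ σ)
    (hT : insert w σ ∈ F.cones) (hT' : insert w' σ ∈ F.cones) (hne : w ≠ w') :
    ∃ a : V n →₀ ℤ, a.support ⊆ σ ∧ tot a = w + w' := by
  classical
  obtain ⟨b, hb, hbt⟩ := F.basis hT (by rw [card_insert_of_notMem hw, hc]) w'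
  obtain ⟨b', hb', hbt'⟩ := F.basis hT' (by rw [card_insert_of_notMem hw', hc]) w
  have h1 := tot_mod hb
  have h2 := tot_mod hb'
  rw [hbt] at h1
  rw [hbt'] at h2
  have h3 : (1 - (b' w' : ℚ) * b w) • qv w ∈ SS σ := by
    have h4 := Submodule.add_mem _ h2 (Submodule.smul_mem _ (b' w' : ℚ) h1)
    convert h4 using 1
    module
  have h4 := F.smul_eq_zero' hw hT h3
  have h5 : b' w' * b w = 1 := by
    have : ((b' w' * b w : ℤ) : ℚ) = ((1 : ℤ) : ℚ) := by push_cast; linarith
    exact_mod_cast this
  rcases Int.eq_one_or_neg_one_of_mul_eq_one (u := b w) (v := b' w') (by linarith) with h6 | h6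
  · -- same side: impossible
    exfalso
    set a : V n →₀ ℤ := b - Finsupp.single w 1 with ha
    have hasup : ∀ u, u ∉ σ → a u = 0 := by
      intro u hu
      rw [ha, Finsupp.sub_apply, Finsupp.single_apply]
      by_cases h : w = u
      · subst h
        rw [if_pos rfl, h6, sub_self]
      · rw [if_neg h, sub_zero]
        by_contra h7
        rcases mem_insert.1 (hb (Finsupp.mem_support_iff.2 h7)) with h8 | h8
        · exact h h8.symm
        · exact hu h8
    have hat : tot a = w' - w := by
      rw [ha, map_sub, hbt, tot_single, one_smul]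
    set M : ℤ := ∑ u ∈ σ, |a u| with hM
    have hMu : ∀ u ∈ σ, 0 ≤ a u + M := by
      intro u hu
      have h7 : |a u| ≤ M := single_le_sum (f := fun u => |a u|) (fun i _ => abs_nonneg _) hu
      have h8 := neg_abs_le (a u)
      linarith
    have hM0 : 0 ≤ M := sum_nonneg fun i _ => abs_nonneg _
    set o : V n →₀ ℤ := ∑ u ∈ σ, Finsupp.single u M with ho
    have hov : ∀ v, o v = if v ∈ σ then M else 0 := by
      intro v
      rw [ho, Finsupp.finsetSum_apply]
      simp only [Finsupp.single_apply]
      rw [sum_ite_eq' σ v]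
    have hR1 : Rep (insert w' σ) (o + Finsupp.single w' 1) (tot o + w') := by
      refine ⟨fun u => ?_, fun u hu => ?_, ?_⟩
      · rw [Finsupp.add_apply, hov, Finsupp.single_apply]
        split_ifs <;> linarith
      · rw [Finsupp.mem_support_iff, Finsupp.add_apply, hov, Finsupp.single_apply] at hu
        by_contra h7
        rw [mem_insert, not_or] at h7
        rw [if_neg h7.2, if_neg (fun h => h7.1 h.symm)] at hu
        exact hu (add_zero _)
      · rw [map_add, tot_single, one_smul]
    have hR2 : Rep (insert w σ) (o + a + Finsupp.single w 1) (tot o + w') := by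
      refine ⟨fun u => ?_, fun u hu => ?_, ?_⟩
      · rw [Finsupp.add_apply, Finsupp.add_apply, hov, Finsupp.single_apply]
        by_cases hu : u ∈ σ
        · have := hMu u hu
          rw [if_pos hu]
          split_ifs <;> linarith
        · rw [if_neg hu, hasup u hu]
          split_ifs <;> norm_num
      · rw [Finsupp.mem_support_iff, Finsupp.add_apply, Finsupp.add_apply, hov, Finsupp.single_apply] at hu
        by_contra h7
        rw [mem_insert, not_or] at h7
        rw [if_neg h7.2, if_neg (fun h => h7.1 h.symm), hasup u h7.2] at hu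
        exact hu (by norm_num)
      · rw [map_add, map_add, tot_single, one_smul, hat]
        abel
    have h7 := F.uniq hT' hT hR1 hR2
    have h8 := DFunLike.congr_fun h7 w'
    rw [Finsupp.add_apply, Finsupp.add_apply, Finsupp.add_apply, hov, if_neg hw', Finsupp.single_eq_same,
      hasup w' hw', Finsupp.single_apply, if_neg hne] at h8
    norm_num at h8
  · refine ⟨b + Finsupp.single w 1, fun u hu => ?_, ?_⟩
    · rw [Finsupp.mem_support_iff, Finsupp.add_apply, Finsupp.single_apply] at hu
      by_cases h : w = u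
      · subst h
        rw [if_pos rfl, h6] at hu
        exact absurd (by norm_num) hu
      · rw [if_neg h, add_zero] at hu
        rcases mem_insert.1 (hb (Finsupp.mem_support_iff.2 hu)) with h8 | h8
        · exact absurd h8.symm h
        · exact h8
    · rw [map_add, hbt, tot_single, one_smul, add_comm]

/-- the decomposition of a vector near a wall and not in its span -/
theorem full {σ : Finset (V n)} (hc : σ.card + 1 = n) {x : V n} (hx : F.Star σ x) (h : qv x ∉ SS σ) :
    ∃ w, w ∉ σ ∧ insert w σ ∈ F.cones ∧ (F.dc x).support = insert w σ := by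
  classical
  have h1 : σ ⊂ (F.dc x).support := by
    refine (F.star_subset hx).ssubset_of_ne fun heq => h ?_
    rw [← F.dc_tot x]
    exact tot_mem_SS heq.symm.subset
  have h2 := card_lt_card h1
  have h3 := card_le_card (F.dc_supp x)
  have h4 := F.card_le (F.cn_mem x)
  have h5 : (F.dc x).support = F.cn x := eq_of_subset_of_card_le (F.dc_supp x) (by omega)
  obtain ⟨w, hw, hw2⟩ := Finset.exists_eq_insert_iff.2 ⟨h1.subset, (by omega : σ.card + 1 = (F.dc x).support.card)⟩
  exact ⟨w, hw, by rw [hw2, h5]; exact F.cn_mem x, hw2.symm⟩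

variable (f : V n → ℝ)

theorem claimC_aux (hE : F.Exch f) {σ : Finset (V n)} (hc : σ.card + 1 = n) {x y w w' : V n}
    (hx : F.Star σ x) (hy : F.Star σ y) (hw : w ∉ σ) (hw' : w' ∉ σ)
    (hT : insert w σ ∈ F.cones) (hT' : insert w' σ ∈ F.cones) (hne : w ≠ w')
    (sx : (F.dc x).support = insert w σ) (sy : (F.dc y).support = insert w' σ)
    (hle : F.dc y w' ≤ F.dc x w) : F.cc f (x + y) ≤ F.cc f x + F.cc f y := by
  classical
  obtain ⟨a, ha, hat⟩ := F.opp hc hw hw' hT hT' hne
  have hex : W f a ≤ f w + f w' := by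
    refine hE _ hT _ hT' (by rw [card_insert_of_notMem hw, hc]) (by rw [card_insert_of_notMem hw', hc])
      w (mem_insert_self _ _) w' (mem_insert_self _ _) hne ?_ a ?_ hat
    · rw [erase_insert hw, erase_insert hw']
    · rw [erase_insert hw]; exact ha
  set q : ℤ := F.dc y w' with hq
  set D : V n →₀ ℤ := F.dc x + F.dc y - q • (Finsupp.single w 1 + Finsupp.single w' 1) + q • a with hD
  have hDt : tot D = x + y := by
    rw [hD, map_add, map_sub, map_add, map_smul, map_smul, map_add, F.dc_tot, F.dc_tot, hat, tot_single,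
      tot_single, one_smul, one_smul]
    abel
  have hq0 : 0 ≤ q := F.dc_nonneg y w'
  have hDW : W f D ≤ F.cc f x + F.cc f y := by
    rw [hD, map_add, map_sub, map_add, map_smul, map_smul, map_add, W_single, W_single, zsmul_eq_mul,
      zsmul_eq_mul]
    have h1 : (0 : ℝ) ≤ q := by exact_mod_cast hq0
    have h2 := mul_le_mul_of_nonneg_left hex h1
    unfold cc
    push_cast
    linarith
  have ha0 : ∀ u, u ∉ σ → a u = 0 := by
    intro u hu
    by_contra h
    exact hu (ha (Finsupp.mem_support_iff.2 h))
  have hx0 : ∀ u, u ∉ insert w σ → F.dc x u = 0 := by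
    intro u hu
    by_contra h
    exact hu (sx ▸ Finsupp.mem_support_iff.2 h)
  have hy0 : ∀ u, u ∉ insert w' σ → F.dc y u = 0 := by
    intro u hu
    by_contra h
    exact hu (sy ▸ Finsupp.mem_support_iff.2 h)
  have hDu : ∀ u, D u = F.dc x u + F.dc y u - q * ((if w = u then 1 else 0) + (if w' = u then 1 else 0))
      + q * a u := by
    intro u
    rw [hD, Finsupp.add_apply, Finsupp.sub_apply, Finsupp.add_apply, Finsupp.smul_apply, Finsupp.smul_apply,
      Finsupp.add_apply, Finsupp.single_apply, Finsupp.single_apply, smul_eq_mul, smul_eq_mul]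
  have hDs : D.support ⊆ insert w σ := by
    intro u hu
    by_contra h
    rw [Finsupp.mem_support_iff, hDu] at hu
    have hu' := h
    rw [mem_insert, not_or] at hu'
    rw [hx0 u h, ha0 u hu'.2, if_neg (fun h => hu'.1 h.symm)] at hu
    by_cases h2 : w' = u
    · subst h2
      rw [if_pos rfl] at hu
      exact hu (by rw [← hq]; ring)
    · rw [if_neg h2, hy0 u (by rw [mem_insert, not_or]; exact ⟨fun h => h2 h.symm, hu'.2⟩)] at hu
      exact hu (by ring)
  have hz : F.Star σ (x + y) := F.star_add hx hy
  have hzs : (F.dc (x + y)).support ⊆ insert w σ := by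
    by_cases hzS : qv (x + y) ∈ SS σ
    · exact (F.supp_dc hz hzS).trans (subset_insert _ _)
    · obtain ⟨v, hv, hTv, sv⟩ := F.full hc hz hzS
      by_cases hvw : v = w
      · rw [sv, hvw]
      · exfalso
        obtain ⟨b, hb, hbt⟩ := F.opp hc hw hv hT hTv (fun h => hvw h.symm)
        have h1 := tot_mod (w := v) (σ := σ) (b := F.dc (x + y)) (sv ▸ subset_rfl)
        have h2 := tot_mod hDs
        have h3 := tot_mem_SS hb
        rw [F.dc_tot] at h1
        rw [hDt] at h2
        rw [hbt, qv_add] at h3
        set s : ℤ := F.dc (x + y) v with hs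
        have hs1 : 1 ≤ s := by
          have h4 : v ∈ (F.dc (x + y)).support := by rw [sv]; exact mem_insert_self _ _
          rw [Finsupp.mem_support_iff] at h4
          have h5 := F.dc_nonneg (x + y) v
          omega
        have h4 : ((D w : ℚ) + s) • qv w ∈ SS σ := by
          have h5 := Submodule.add_mem _ (Submodule.sub_mem _ h1 h2) (Submodule.smul_mem _ (s : ℚ) h3)
          convert h5 using 1
          module
        have h5 := F.smul_eq_zero' hw hT h4
        have h6 : D w + s = 0 := by
          have : ((D w + s : ℤ) : ℚ) = ((0 : ℤ) : ℚ) := by push_cast; linarith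
          exact_mod_cast this
        rw [hDu w, if_pos rfl, if_neg (fun h => hne h.symm), ha0 w hw,
          hy0 w (by rw [mem_insert, not_or]; exact ⟨hne, hw⟩)] at h6
        linarith
  have heq : F.dc (x + y) = D := by
    have h1 : (F.dc (x + y) - D).support ⊆ insert w σ :=
      (Finsupp.support_sub).trans (union_subset hzs hDs)
    have h2 := F.li' hT h1 (by rw [map_sub, F.dc_tot, hDt, sub_self])
    exact sub_eq_zero.1 h2
  have h3 : F.cc f (x + y) = W f D := by
    unfold cc
    rw [heq]
  rw [h3]
  exact hDW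

theorem claimC (hE : F.Exch f) {σ : Finset (V n)} (hc : σ.card + 1 = n) {x y : V n}
    (hx : F.Star σ x) (hy : F.Star σ y) : F.cc f (x + y) ≤ F.cc f x + F.cc f y := by
  classical
  by_cases hxS : qv x ∈ SS σ
  · have h1 := F.supp_dc hx hxS
    have h2 : F.mu x y = 0 :=
      F.mu_zero (F.cn_mem y) (h1.trans ((F.star_subset hy).trans (F.dc_supp y))) (F.dc_supp y)
    exact (F.cc_add f h2).le
  by_cases hyS : qv y ∈ SS σ
  · have h1 := F.supp_dc hy hyS
    have h2 : F.mu x y = 0 :=
      F.mu_zero (F.cn_mem x) (F.dc_supp x) (h1.trans ((F.star_subset hx).trans (F.dc_supp x)))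
    exact (F.cc_add f h2).le
  obtain ⟨w, hw, hT, sx⟩ := F.full hc hx hxS
  obtain ⟨w', hw', hT', sy⟩ := F.full hc hy hyS
  by_cases hne : w = w'
  · subst hne
    have h2 : F.mu x y = 0 := F.mu_zero hT (sx ▸ subset_rfl) (sy ▸ subset_rfl)
    exact (F.cc_add f h2).le
  rcases le_total (F.dc y w') (F.dc x w) with hle | hle
  · exact F.claimC_aux f hE hc hx hy hw hw' hT hT' hne sx sy hle
  · have h1 := F.claimC_aux f hE hc hy hx hw' hw hT' hT (fun h => hne h.symm) sy sx hle
    rw [add_comm x y]
    linarith

theorem sub_star (hE : F.Exch f) : ∀ k : ℕ, ∀ σ : Finset (V n), n ≤ σ.card + k → ∀ x y, F.Star σ x →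
    F.Star σ y → F.cc f (x + y) ≤ F.cc f x + F.cc f y := by
  intro k
  induction k with
  | zero =>
    intro σ hσ x y hx hy
    have h1 : ∀ x, F.Star σ x → σ = F.cn x := by
      intro x hx
      refine eq_of_subset_of_card_le ((F.star_subset hx).trans (F.dc_supp x)) ?_
      have := F.card_le (F.cn_mem x)
      omega
    have h2 : F.mu x y = 0 := by
      refine F.mu_zero (F.cn_mem x) (F.dc_supp x) ?_
      rw [← h1 x hx, h1 y hy]
      exact F.dc_supp y
    exact (F.cc_add f h2).le
  | succ k ih =>
    intro σ hσ x y hx hy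
    by_cases h0 : n ≤ σ.card + k
    · exact ih σ h0 x y hx hy
    have hn : n = σ.card + k + 1 := by omega
    rcases Nat.eq_zero_or_pos k with hk | hk
    · exact F.claimC f hE (by omega) hx hy
    · exact F.claimB f σ (by omega) (fun σ' h1 x y hx hy => ih σ' (by omega) x y hx hy) x y hx hy

/-- **Subadditivity.** -/
theorem subadd (hE : F.Exch f) (x y : V n) : F.cc f (x + y) ≤ F.cc f x + F.cc f y :=
  F.sub_star f hE n ∅ (by simp) x y (fun u hu => absurd hu (notMem_empty u))
    (fun u hu => absurd hu (notMem_empty u))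

end Fan

end Pool.Agent.Helper52.DW
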